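import Mathlib

/-!
# King and rook against king on a board that may be unbounded to the north and east
-/

set_option autoImplicit false

namespace K1H58.KR

/-- A square: (file, rank), both counted from `1`. -/
abbrev Sq := ℕ × ℕ

/-- The board with files `1, …, m` and ranks `1, …, n`; `⊤` means that there is no edge there.
`careful`: the Black king can leave the board over the north or the east edge only to a (virtual)
square that White does not attack; otherwise he can always do so. -/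
structure Board where
  m : ℕ∞
  n : ℕ∞
  careful : Bool

/-- The square lies on the board. -/
def Board.On (B : Board) (s : Sq) : Prop :=
  1 ≤ s.1 ∧ 1 ≤ s.2 ∧ (s.1 : ℕ∞) ≤ B.m ∧ (s.2 : ℕ∞) ≤ B.n

/-- The squares of the White king, the White rook and the Black king. -/
structure Pos where
  wk : Sq
  wr : Sq
  bk : Sq

/-- The squares are equal or a king step apart. -/
def Near (s t : Sq) : Prop :=
  s.1 ≤ t.1 + 1 ∧ t.1 ≤ s.1 + 1 ∧ s.2 ≤ t.2 + 1 ∧ t.2 ≤ s.2 + 1

def KingStep (s t : Sq) : Prop := s ≠ t ∧ Near s t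

/-- `b` is strictly between `a` and `c`. -/
def Strict (a b c : ℕ) : Prop := (a < b ∧ b < c) ∨ (c < b ∧ b < a)

/-- `u` is strictly between `s` and `t` on a common file or rank. -/
def Between (s u t : Sq) : Prop :=
  (s.1 = u.1 ∧ u.1 = t.1 ∧ Strict s.2 u.2 t.2) ∨ (s.2 = u.2 ∧ u.2 = t.2 ∧ Strict s.1 u.1 t.1)

/-- Different squares on a common file or rank. -/
def Aligned (s t : Sq) : Prop := s ≠ t ∧ (s.1 = t.1 ∨ s.2 = t.2)

/-- The rook on `r` attacks the square `t`, the White king being on `k`. -/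
def Attacks (k r t : Sq) : Prop := Aligned r t ∧ ¬ Between r k t

/-- The legal moves of White. -/
inductive WhiteMove (B : Board) (p q : Pos) : Prop
  | king : q.wr = p.wr → q.bk = p.bk → KingStep p.wk q.wk → B.On q.wk → q.wk ≠ p.wr →
      ¬ Near q.wk p.bk → WhiteMove B p q
  | rook : q.wk = p.wk → q.bk = p.bk → Aligned p.wr q.wr → B.On q.wr → q.wr ≠ p.wk →
      q.wr ≠ p.bk → ¬ Between p.wr p.wk q.wr → ¬ Between p.wr p.bk q.wr → WhiteMove B p q

/-- The Black king may move to the square `t`, by the rules of chess on the board (`t` may be the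
square of the rook), or `t` is beyond the north or the east edge (and, if `B.careful`, `t` is not
attacked by White). -/
def BlackMove (B : Board) (q : Pos) (t : Sq) : Prop :=
  KingStep q.bk t ∧ 1 ≤ t.1 ∧ 1 ≤ t.2 ∧
    (B.On t ∨ B.careful = true → ¬ Near q.wk t ∧ (t = q.wr ∨ ¬ Attacks q.wk q.wr t))

/-- Black to move is checkmated. -/
def IsMate (B : Board) (q : Pos) : Prop :=
  Attacks q.wk q.wr q.bk ∧ ∀ t, ¬ BlackMove B q t

/-- Black to move is checkmated, or has a move and all his moves stay on the board, do not capture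
the rook and lead to a position in `P`. -/
def Lost (B : Board) (P : Pos → Prop) (q : Pos) : Prop :=
  IsMate B q ∨ ((∃ t, BlackMove B q t) ∧
    ∀ t, BlackMove B q t → B.On t ∧ t ≠ q.wr ∧ P ⟨q.wk, q.wr, t⟩)

/-- White, to move, can force checkmate within `N` moves. -/
def MateIn (B : Board) : ℕ → Pos → Prop
  | 0, _ => False
  | N + 1, p => ∃ q, WhiteMove B p q ∧ Lost B (MateIn B N) q

/-- White, to move, can force checkmate. -/
inductive Wins (B : Board) : Pos → Prop
  | mate (p q : Pos) : WhiteMove B p q → IsMate B q → Wins B p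
  | step (p q : Pos) : WhiteMove B p q → (∃ t, BlackMove B q t) →
      (∀ t, BlackMove B q t → B.On t ∧ t ≠ q.wr) →
      (∀ t, BlackMove B q t → Wins B ⟨q.wk, q.wr, t⟩) → Wins B p

/-- White king a1, White rook b2, Black king c3. -/
def start : Pos := ⟨(1, 1), (2, 2), (3, 3)⟩

theorem Lost.mono {B : Board} {P Q : Pos → Prop} (h : ∀ p, P p → Q p) {q : Pos}
    (hq : Lost B P q) : Lost B Q q := by
  rcases hq with h1 | ⟨h1, h2⟩
  · exact Or.inl h1
  · exact Or.inr ⟨h1, fun t ht => ⟨(h2 t ht).1, (h2 t ht).2.1, h _ (h2 t ht).2.2⟩⟩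

theorem MateIn.succ {B : Board} : ∀ {N : ℕ} {p : Pos}, MateIn B N p → MateIn B (N + 1) p
  | 0, _, h => h.elim
  | _ + 1, _, ⟨q, h1, h2⟩ => ⟨q, h1, h2.mono fun _ => MateIn.succ⟩

theorem MateIn.mono {B : Board} {N K : ℕ} (h : N ≤ K) {p : Pos} (hp : MateIn B N p) :
    MateIn B K p := by
  induction h with
  | refl => exact hp
  | step _ ih => exact ih.succ

theorem MateIn.wins {B : Board} : ∀ {N : ℕ} {p : Pos}, MateIn B N p → Wins B p
  | 0, _, h => h.elim
  | N + 1, p, ⟨q, h1, h2⟩ => by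
    rcases h2 with h2 | ⟨h2, h3⟩
    · exact Wins.mate p q h1 h2
    · exact Wins.step p q h1 h2 (fun t ht => ⟨(h3 t ht).1, (h3 t ht).2.1⟩)
        fun t ht => (h3 t ht).2.2.wins

/-- a set of positions closed under the White winning rule contains the winning positions -/
theorem Wins.least {B : Board} {P : Pos → Prop}
    (h : ∀ p, (∃ q, WhiteMove B p q ∧ Lost B P q) → P p) {p : Pos} (hp : Wins B p) : P p := by
  induction hp with
  | mate p q h1 h2 => exact h p ⟨q, h1, Or.inl h2⟩
  | step p q h1 h2 h3 _ ih =>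
    exact h p ⟨q, h1, Or.inr ⟨h2, fun t ht => ⟨(h3 t ht).1, (h3 t ht).2, ih t ht⟩⟩⟩

/-! ### Larger boards -/

theorem Board.On.mono {B B' : Board} (hm : B.m ≤ B'.m) (hn : B.n ≤ B'.n) {s : Sq}
    (h : B.On s) : B'.On s := ⟨h.1, h.2.1, h.2.2.1.trans hm, h.2.2.2.trans hn⟩

theorem WhiteMove.mono {B B' : Board} (hm : B.m ≤ B'.m) (hn : B.n ≤ B'.n) {p q : Pos}
    (h : WhiteMove B p q) : WhiteMove B' p q := by
  cases h with
  | king h1 h2 h3 h4 h5 h6 => exact .king h1 h2 h3 (h4.mono hm hn) h5 h6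
  | rook h1 h2 h3 h4 h5 h6 h7 h8 => exact .rook h1 h2 h3 (h4.mono hm hn) h5 h6 h7 h8

/-- If no Black move leaves the small board then the moves are the same on both boards. -/
theorem blackMove_iff {B B' : Board} (hm : B.m ≤ B'.m) (hn : B.n ≤ B'.n)
    (hc : B.careful = true → B'.careful = true) {q : Pos}
    (h : ∀ t, BlackMove B q t → B.On t) (t : Sq) : BlackMove B' q t ↔ BlackMove B q t := by
  constructor
  · rintro ⟨h1, h2, h3, h4⟩
    by_cases h5 : B.On t
    · exact ⟨h1, h2, h3, fun _ => h4 (Or.inl (h5.mono hm hn))⟩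
    · exact ⟨h1, h2, h3, fun h6 => h4 (Or.inr (hc (h6.resolve_left h5)))⟩
  · intro h5
    have h6 := h t h5
    obtain ⟨h1, h2, h3, h4⟩ := h5
    exact ⟨h1, h2, h3, fun _ => h4 (Or.inl h6)⟩

theorem Lost.board {B B' : Board} (hm : B.m ≤ B'.m) (hn : B.n ≤ B'.n)
    (hc : B.careful = true → B'.careful = true) {P P' : Pos → Prop}
    (hP : ∀ p, P p → P' p) {q : Pos} (hq : Lost B P q) : Lost B' P' q := by
  rcases hq with ⟨h1, h2⟩ | ⟨h1, h2⟩
  · exact Or.inl ⟨h1, fun t ht =>
      h2 t ((blackMove_iff hm hn hc (fun t ht => absurd ht (h2 t)) t).1 ht)⟩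
  · have e := blackMove_iff hm hn hc (fun t ht => (h2 t ht).1)
    obtain ⟨t, ht⟩ := h1
    refine Or.inr ⟨⟨t, (e t).2 ht⟩, fun t ht => ?_⟩
    have h3 := h2 t ((e t).1 ht)
    exact ⟨h3.1.mono hm hn, h3.2.1, hP _ h3.2.2⟩

theorem MateIn.board {B B' : Board} (hm : B.m ≤ B'.m) (hn : B.n ≤ B'.n)
    (hc : B.careful = true → B'.careful = true) :
    ∀ {N : ℕ} {p : Pos}, MateIn B N p → MateIn B' N p
  | 0, _, h => h.elim
  | _ + 1, _, ⟨q, h1, h2⟩ =>
    ⟨q, h1.mono hm hn, h2.board hm hn hc fun _ => MateIn.board hm hn hc⟩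

theorem Wins.board {B B' : Board} (hm : B.m ≤ B'.m) (hn : B.n ≤ B'.n)
    (hc : B.careful = true → B'.careful = true) {p : Pos}
    (h : Wins B p) : Wins B' p := by
  refine Wins.least (B := B) (P := Wins B') ?_ h
  rintro p ⟨q, h1, h2⟩
  rcases h2.board hm hn hc (P' := Wins B') (fun _ h => h) with h3 | ⟨h3, h4⟩
  · exact Wins.mate p q (h1.mono hm hn) h3
  · exact Wins.step p q (h1.mono hm hn) h3 (fun t ht => ⟨(h4 t ht).1, (h4 t ht).2.1⟩)
      fun t ht => (h4 t ht).2.2

end K1H58.KR
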