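import Pool.Agent.K1H58.KR.NegDef
import Pool.Agent.K1H58.KR.Rules

/-!
# One coordinate: the real coordinates and the coordinates in the moving frame
-/

set_option autoImplicit false
set_option linter.unusedSimpArgs false

namespace K1H58.KR

/-- size of the White planes -/
def Wd (A : ℕ) (roll : Bool) : ℕ := cond roll (A + 2) A

/-- `s`: shift of the frame; `K R B` real coordinates (from 1) of White king, rook, Black king;
`k r b` table coordinates (from 0). -/
structure AxR (A : ℕ) (roll : Bool) (s K R B k r b : ℕ) : Prop where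
  K1 : 1 ≤ K
  R1 : 1 ≤ R
  KA : roll = false → K ≤ A
  RA : roll = false → R ≤ A
  hB : B = s + b + 1
  hb : b < A
  hs : 0 < s → roll = true ∧ b + 1 = A
  hk : k = min (K - (s + 1)) (Wd A roll - 1)
  hr : r = min (R - (s + 1)) (Wd A roll - 1)

def NearN (u v : ℕ) : Prop := u ≤ v + 1 ∧ v ≤ u + 1

theorem nearB_iff {u v : ℕ} : nearB u v = true ↔ NearN u v := by
  unfold nearB NearN; simp

section
variable {A : ℕ} {roll : Bool} {s K R B k r b : ℕ}

theorem AxR.klt (h : AxR A roll s K R B k r b) (hA : 3 ≤ A) : k < Wd A roll := by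
  obtain ⟨h1, h2, h3, h4, h5, h6, h7, h8, h9⟩ := h
  cases roll <;> simp only [Wd, cond_true, cond_false, reduceCtorEq, forall_const, false_implies, true_implies,
    true_and, false_and, not_false_eq_true, eq_self_iff_true, Bool.true_eq_false, Bool.false_eq_true, imp_false] at * <;> omega

theorem AxR.rlt (h : AxR A roll s K R B k r b) (hA : 3 ≤ A) : r < Wd A roll := by
  obtain ⟨h1, h2, h3, h4, h5, h6, h7, h8, h9⟩ := h
  cases roll <;> simp only [Wd, cond_true, cond_false, reduceCtorEq, forall_const, false_implies, true_implies,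
    true_and, false_and, not_false_eq_true, eq_self_iff_true, Bool.true_eq_false, Bool.false_eq_true, imp_false] at * <;> omega

theorem AxR.nearKB (h : AxR A roll s K R B k r b) (hA : 3 ≤ A) : NearN K B ↔ NearN b k := by
  obtain ⟨h1, h2, h3, h4, h5, h6, h7, h8, h9⟩ := h
  unfold NearN
  cases roll <;> simp only [Wd, cond_true, cond_false, reduceCtorEq, forall_const, false_implies, true_implies,
    true_and, false_and, not_false_eq_true, eq_self_iff_true, Bool.true_eq_false, Bool.false_eq_true, imp_false] at * <;> omega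

theorem AxR.nearRB (h : AxR A roll s K R B k r b) (hA : 3 ≤ A) : NearN R B ↔ NearN b r := by
  obtain ⟨h1, h2, h3, h4, h5, h6, h7, h8, h9⟩ := h
  unfold NearN
  cases roll <;> simp only [Wd, cond_true, cond_false, reduceCtorEq, forall_const, false_implies, true_implies,
    true_and, false_and, not_false_eq_true, eq_self_iff_true, Bool.true_eq_false, Bool.false_eq_true, imp_false] at * <;> omega

theorem AxR.nearKR (h : AxR A roll s K R B k r b) (hA : 3 ≤ A) : NearN K R → NearN r k := by
  obtain ⟨h1, h2, h3, h4, h5, h6, h7, h8, h9⟩ := h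
  unfold NearN
  cases roll <;> simp only [Wd, cond_true, cond_false, reduceCtorEq, forall_const, false_implies, true_implies,
    true_and, false_and, not_false_eq_true, eq_self_iff_true, Bool.true_eq_false, Bool.false_eq_true, imp_false] at * <;> omega

theorem AxR.eqRB (h : AxR A roll s K R B k r b) (hA : 3 ≤ A) : R = B ↔ b = r := by
  obtain ⟨h1, h2, h3, h4, h5, h6, h7, h8, h9⟩ := h
  cases roll <;> simp only [Wd, cond_true, cond_false, reduceCtorEq, forall_const, false_implies, true_implies,
    true_and, false_and, not_false_eq_true, eq_self_iff_true, Bool.true_eq_false, Bool.false_eq_true, imp_false] at * <;> omega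

theorem AxR.eqKB (h : AxR A roll s K R B k r b) (hA : 3 ≤ A) : K = B ↔ b = k := by
  obtain ⟨h1, h2, h3, h4, h5, h6, h7, h8, h9⟩ := h
  cases roll <;> simp only [Wd, cond_true, cond_false, reduceCtorEq, forall_const, false_implies, true_implies,
    true_and, false_and, not_false_eq_true, eq_self_iff_true, Bool.true_eq_false, Bool.false_eq_true, imp_false] at * <;> omega

theorem AxR.strict (h : AxR A roll s K R B k r b) (hA : 3 ≤ A) (h' : Strict r k b) :
    Strict R K B := by
  obtain ⟨h1, h2, h3, h4, h5, h6, h7, h8, h9⟩ := h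
  unfold Strict at *
  cases roll <;> simp only [Wd, cond_true, cond_false, reduceCtorEq, forall_const, false_implies, true_implies,
    true_and, false_and, not_false_eq_true, eq_self_iff_true, Bool.true_eq_false, Bool.false_eq_true, imp_false] at * <;> omega

/-- the converse if the king is not far and the frame has not moved -/
theorem AxR.strict' (h : AxR A roll s K R B k r b) (hA : 3 ≤ A) (hb : b + 1 < A)
    (hk : roll = true → k + 1 < Wd A roll) {t : ℕ} (ht : t < A) (h' : Strict R K (t + 1)) :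
    Strict r k t := by
  obtain ⟨h1, h2, h3, h4, h5, h6, h7, h8, h9⟩ := h
  unfold Strict at *
  cases roll <;> simp only [Wd, cond_true, cond_false, reduceCtorEq, forall_const, false_implies, true_implies,
    true_and, false_and, not_false_eq_true, eq_self_iff_true, Bool.true_eq_false, Bool.false_eq_true, imp_false] at * <;> omega

/-- equal table coordinates and not far: equal coordinates -/
theorem AxR.eqKR (h : AxR A roll s K R B k r b) (hA : 3 ≤ A) (e : r = k)
    (hf : ¬ (roll = true ∧ (k + 1 = Wd A roll ∨ (b + 1 = A ∧ k = 0)))) : K = R := by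
  obtain ⟨h1, h2, h3, h4, h5, h6, h7, h8, h9⟩ := h
  cases roll <;> simp only [Wd, cond_true, cond_false, reduceCtorEq, forall_const, false_implies, true_implies,
    true_and, false_and, not_false_eq_true, eq_self_iff_true, Bool.true_eq_false, Bool.false_eq_true, imp_false] at * <;> omega

theorem AxR.eqKR' (h : AxR A roll s K R B k r b) (e : K = R) : r = k := by
  obtain ⟨h1, h2, h3, h4, h5, h6, h7, h8, h9⟩ := h
  rw [h8, h9, e]

/-- the White king moves -/
theorem AxR.moveK (h : AxR A roll s K R B k r b) (hA : 3 ≤ A) {K' : ℕ} (h1 : 1 ≤ K')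
    (h2 : roll = false → K' ≤ A) (h3 : NearN K K') :
    ∃ k', AxR A roll s K' R B k' r b ∧ NearN k k' := by
  obtain ⟨g1, g2, g3, g4, g5, g6, g7, g8, g9⟩ := h
  refine ⟨_, ⟨h1, g2, h2, g4, g5, g6, g7, rfl, g9⟩, ?_⟩
  unfold NearN at *
  cases roll <;> simp only [Wd, cond_true, cond_false, reduceCtorEq, forall_const, false_implies, true_implies,
    true_and, false_and, not_false_eq_true, eq_self_iff_true, Bool.true_eq_false, Bool.false_eq_true, imp_false] at * <;> omega

/-- the rook moves -/
theorem AxR.moveR (h : AxR A roll s K R B k r b) {R' : ℕ} (h1 : 1 ≤ R')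
    (h2 : roll = false → R' ≤ A) : ∃ r', AxR A roll s K R' B k r' b := by
  obtain ⟨g1, g2, g3, g4, g5, g6, g7, g8, g9⟩ := h
  exact ⟨_, ⟨g1, h1, g3, h2, g5, g6, g7, g8, rfl⟩⟩

/-- the squares beside the Black king along this axis: `T` is `e - 1` squares up -/
theorem AxR.exit (h : AxR A roll s K R B k r b) (hA : 3 ≤ A) {e T : ℕ} (he : e ≤ 2)
    (hbe : 1 ≤ b + e) (hT : T + 1 = B + e) :
    1 ≤ T ∧ NearN B T ∧ (NearN K T → NearN (b + e) (k + 1)) ∧ (R = T → b + e = r + 1) ∧
      (b + e = k + 1 → K = T) := by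
  obtain ⟨h1, h2, h3, h4, h5, h6, h7, h8, h9⟩ := h
  unfold NearN
  cases roll <;> simp only [Wd, cond_true, cond_false, reduceCtorEq, forall_const, false_implies, true_implies,
    true_and, false_and, not_false_eq_true, eq_self_iff_true, Bool.true_eq_false, Bool.false_eq_true, imp_false] at * <;> omega

/-- the coordinate of an edge -/
theorem AxR.edge (h : AxR A false s K R B k r b) (hA : 3 ≤ A) (hb : b + 1 = A) :
    B = A ∧ R ≤ A ∧ (NearN K (A + 1) → k + 1 = A) ∧ (r < k → R < K) ∧ K < A + 1 := by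
  obtain ⟨h1, h2, h3, h4, h5, h6, h7, h8, h9⟩ := h
  unfold NearN
  simp only [Wd, cond_true, cond_false, reduceCtorEq, forall_const, false_implies, true_implies,
    true_and, false_and, not_false_eq_true, eq_self_iff_true, Bool.true_eq_false, Bool.false_eq_true, imp_false] at *
  omega

theorem AxR.r_eq {R' r' : ℕ} (h : AxR A roll s K R B k r b) (h' : AxR A roll s K R' B k r' b)
    (e : R = R') : r = r' := by
  rw [h.hr, h'.hr, e]

end

/-- new coordinates of a White piece when the frame moves up -/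
def OptU (n c c' : ℕ) : Prop := (1 ≤ c ∧ (c' + 1 = c ∨ (c + 1 = n ∧ c' = c))) ∨ (c = 0 ∧ c' = 0)

/-- new coordinates of a White piece when the frame moves down -/
def OptD (n c c' : ℕ) : Prop :=
  (c + 1 < n ∧ (c' = c + 1 ∨ (c = 0 ∧ c' = 0))) ∨ (c + 1 = n ∧ c' = c)

section
variable {A : ℕ} {roll : Bool} {s K R B k r b : ℕ}

theorem AxR.stepU (h : AxR A roll s K R B k r b) (hA : 3 ≤ A) {P : ℕ → ℕ → ℕ → Prop}
    (hP : (b + 1 < A ∧ P k r (b + 1)) ∨ (roll = true ∧ b + 1 = A ∧
      ∀ k' r', OptU (Wd A roll) k k' → OptU (Wd A roll) r r' → P k' r' b)) :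
    ∃ s' k' r' b', AxR A roll s' K R (B + 1) k' r' b' ∧ P k' r' b' := by
  obtain ⟨g1, g2, g3, g4, g5, g6, g7, g8, g9⟩ := h
  rcases hP with ⟨h1, h2⟩ | ⟨h1, h2, h3⟩
  · have hs0 : s = 0 := by
      by_contra h
      have := (g7 (by omega)).2
      omega
    subst hs0
    exact ⟨0, k, r, b + 1, ⟨g1, g2, g3, g4, by omega, h1, by omega, g8, g9⟩, h2⟩
  · subst h1
    refine ⟨s + 1, min (K - (s + 1 + 1)) (A + 2 - 1), min (R - (s + 1 + 1)) (A + 2 - 1), b,
      ⟨g1, g2, g3, g4, by omega, g6, fun _ => ⟨rfl, h2⟩, rfl, rfl⟩, h3 _ _ ?_ ?_⟩ <;>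
    · clear h3
      simp only [Wd, cond_true] at g8 g9 ⊢
      unfold OptU; omega

theorem AxR.stepD (h : AxR A roll s K R B k r b) (hA : 3 ≤ A) {P : ℕ → ℕ → ℕ → Prop}
    (hb : 1 ≤ b) (h1 : P k r (b - 1)) (h2 : roll = true → b + 1 < A ∨
      ∀ k' r', OptD (Wd A roll) k k' → OptD (Wd A roll) r r' → P k' r' b) :
    2 ≤ B ∧ ∃ s' k' r' b', AxR A roll s' K R (B - 1) k' r' b' ∧ P k' r' b' := by
  obtain ⟨g1, g2, g3, g4, g5, g6, g7, g8, g9⟩ := h
  refine ⟨by omega, ?_⟩
  rcases Nat.eq_zero_or_pos s with hs0 | hs0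
  · subst hs0
    exact ⟨0, k, r, b - 1, ⟨g1, g2, g3, g4, by omega, by omega, by omega, g8, g9⟩, h1⟩
  · obtain ⟨h3, h4⟩ := g7 hs0
    subst h3
    rcases h2 rfl with h5 | h5
    · omega
    · refine ⟨s - 1, min (K - (s - 1 + 1)) (A + 2 - 1), min (R - (s - 1 + 1)) (A + 2 - 1), b,
        ⟨g1, g2, g3, g4, by omega, g6, fun _ => ⟨rfl, h4⟩, rfl, rfl⟩, h5 _ _ ?_ ?_⟩ <;>
      · clear h5 h2
        simp only [Wd, cond_true] at g8 g9 ⊢
        unfold OptD; omega

end

end K1H58.KR
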