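import Mathlib

/-!
# Bit tables: concatenations of blocks, replication, masks
-/

set_option autoImplicit false

namespace K1H58.KR

/-- `n` blocks of `w` bits; the `i`-th block is `f i` -/
def tab (w : ℕ) (f : ℕ → ℕ) : ℕ → ℕ
  | 0 => 0
  | n + 1 => tab w f n ||| (f n <<< (w * n))

theorem tab_lt {w : ℕ} {f : ℕ → ℕ} (n : ℕ) (hf : ∀ i < n, f i < 2 ^ w) :
    tab w f n < 2 ^ (w * n) := by
  induction n with
  | zero => simp [tab]
  | succ n ih =>
    have h1 : tab w f n < 2 ^ (w * (n + 1)) :=
      lt_of_lt_of_le (ih fun i hi => hf i (by omega))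
        (Nat.pow_le_pow_right (by norm_num) (Nat.mul_le_mul_left _ (by omega)))
    have h2 : f n <<< (w * n) < 2 ^ (w * (n + 1)) := by
      rw [Nat.shiftLeft_eq, Nat.mul_succ, pow_add, mul_comm]
      exact Nat.mul_lt_mul_of_pos_left (hf n (by omega)) (by positivity)
    exact Nat.or_lt_two_pow h1 h2

theorem testBit_tab {w : ℕ} {f : ℕ → ℕ} {n : ℕ} (hf : ∀ i < n, f i < 2 ^ w) {i s : ℕ}
    (hi : i < n) (hs : s < w) : (tab w f n).testBit (s + w * i) = (f i).testBit s := by
  induction n with
  | zero => omega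
  | succ n ih =>
    rw [tab, Nat.testBit_or, Nat.testBit_shiftLeft]
    rcases Nat.lt_or_ge i n with h | h
    · rw [ih (fun j hj => hf j (by omega)) h]
      have h2 : ¬ (s + w * i ≥ w * n) := by
        have : w * (i + 1) ≤ w * n := Nat.mul_le_mul_left _ h
        rw [Nat.mul_succ] at this
        omega
      simp [h2]
    · have h3 : i = n := by omega
      subst h3
      have h4 : (tab w f i).testBit (s + w * i) = false := by
        apply Nat.testBit_lt_two_pow
        exact lt_of_lt_of_le (tab_lt i fun j hj => hf j (by omega))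
          (Nat.pow_le_pow_right (by norm_num) (by omega))
      rw [h4]
      simp

/-- replication of a block of `w` bits, successively along a list of dimensions -/
def reps : ℕ → ℕ → List ℕ → ℕ
  | _, c, [] => c
  | w, c, n :: l => reps (w * n) (tab w (fun _ => c) n) l

theorem reps_lt : ∀ (l : List ℕ) {w c : ℕ}, c < 2 ^ w → reps w c l < 2 ^ (w * l.prod) := by
  intro l
  induction l with
  | nil => intro w c h; simpa [reps] using h
  | cons n l ih =>
    intro w c h
    rw [reps, List.prod_cons, ← mul_assoc]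
    exact ih (tab_lt n fun _ _ => h)

theorem testBit_reps : ∀ (l : List ℕ) {w c : ℕ}, c < 2 ^ w → ∀ {s q : ℕ}, s < w → q < l.prod →
    (reps w c l).testBit (s + w * q) = c.testBit s := by
  intro l
  induction l with
  | nil =>
    intro w c h s q hs hq
    have hq0 : q = 0 := by simpa using hq
    subst hq0
    simp [reps]
  | cons n l ih =>
    intro w c h s q hs hq
    rw [List.prod_cons] at hq
    have hn : 0 < n := by
      rcases Nat.eq_zero_or_pos n with h0 | h0
      · subst h0; simp at hq
      · exact h0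
    have h1 : q % n < n := Nat.mod_lt _ hn
    have h2 : q / n < l.prod := Nat.div_lt_of_lt_mul (by linarith)
    have h3 : s + w * q = (s + w * (q % n)) + (w * n) * (q / n) := by
      conv_lhs => rw [← Nat.mod_add_div q n]
      ring
    have h4 : s + w * (q % n) < w * n := by
      have : w * (q % n + 1) ≤ w * n := Nat.mul_le_mul_left _ h1
      rw [Nat.mul_succ] at this
      omega
    rw [reps, h3, ih (tab_lt n fun _ _ => h) h4 h2, testBit_tab (fun _ _ => h) h1 hs]

/-- all `w` bits set or none -/
def blk (w : ℕ) (p : Bool) : ℕ := cond p (2 ^ w - 1) 0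

theorem blk_lt (w : ℕ) (p : Bool) : blk w p < 2 ^ w := by
  cases p <;> simp [blk]

theorem testBit_blk {w s : ℕ} (p : Bool) (hs : s < w) : (blk w p).testBit s = p := by
  cases p
  · simp [blk]
  · simp [blk, hs]

/-- mask depending on one coordinate `c < n` with stride `w` -/
def slab (w n : ℕ) (os : List ℕ) (p : ℕ → Bool) : ℕ :=
  reps (w * n) (tab w (fun c => blk w (p c)) n) os

theorem slab_lt (w n : ℕ) (os : List ℕ) (p : ℕ → Bool) :
    slab w n os p < 2 ^ (w * n * os.prod) :=
  reps_lt _ (tab_lt n fun _ _ => blk_lt _ _)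

theorem testBit_slab {w n : ℕ} {os : List ℕ} {p : ℕ → Bool} {s c q : ℕ} (hs : s < w) (hc : c < n)
    (hq : q < os.prod) : (slab w n os p).testBit (s + w * (c + n * q)) = p c := by
  have h3 : s + w * (c + n * q) = (s + w * c) + (w * n) * q := by ring
  have h4 : s + w * c < w * n := by
    have : w * (c + 1) ≤ w * n := Nat.mul_le_mul_left _ hc
    rw [Nat.mul_succ] at this
    omega
  rw [slab, h3, testBit_reps _ (tab_lt n fun _ _ => blk_lt _ _) h4 hq,
    testBit_tab (fun _ _ => blk_lt _ _) hc hs, testBit_blk _ hs]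

/-- mask depending on two coordinates -/
def rel (w n : ℕ) (ms : List ℕ) (n' : ℕ) (os : List ℕ) (p : ℕ → ℕ → Bool) : ℕ :=
  reps (w * n * ms.prod * n')
    (tab (w * n * ms.prod) (fun c' => slab w n ms (fun c => p c c')) n') os

theorem testBit_rel {w n : ℕ} {ms : List ℕ} {n' : ℕ} {os : List ℕ} {p : ℕ → ℕ → Bool}
    {s c t c' q : ℕ} (hs : s < w) (hc : c < n) (ht : t < ms.prod) (hc' : c' < n')
    (hq : q < os.prod) :
    (rel w n ms n' os p).testBit (s + w * (c + n * (t + ms.prod * (c' + n' * q)))) = p c c' := by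
  have h0 : ∀ i < n', slab w n ms (fun c => p c i) < 2 ^ (w * n * ms.prod) :=
    fun i _ => slab_lt _ _ _ _
  have h1 : s + w * (c + n * t) < w * n * ms.prod := by
    have e1 : c + n * t < n * ms.prod := by
      have : n * (t + 1) ≤ n * ms.prod := Nat.mul_le_mul_left _ ht
      rw [Nat.mul_succ] at this
      omega
    have : w * (c + n * t + 1) ≤ w * (n * ms.prod) := Nat.mul_le_mul_left _ e1
    rw [Nat.mul_succ, ← mul_assoc] at this
    omega
  have h2 : s + w * (c + n * (t + ms.prod * (c' + n' * q))) =
      ((s + w * (c + n * t)) + (w * n * ms.prod) * c') + (w * n * ms.prod * n') * q := by ring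
  have h3 : (s + w * (c + n * t)) + (w * n * ms.prod) * c' < w * n * ms.prod * n' := by
    have : (w * n * ms.prod) * (c' + 1) ≤ (w * n * ms.prod) * n' := Nat.mul_le_mul_left _ hc'
    rw [Nat.mul_succ] at this
    omega
  rw [rel, h2, testBit_reps _ (tab_lt n' h0) h3 hq, testBit_tab h0 hc' h1,
    testBit_slab hs hc ht]

end K1H58.KR
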