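import Pool.Agent.K1H58.KR.Bits

/-!
# Six coordinates in one number
-/

set_option autoImplicit false

namespace K1H58.KR

/-- dimensions: BK plane `A × B`, planes of the rook and of the white king `M × N` -/
structure Geo where
  A : ℕ
  B : ℕ
  M : ℕ
  N : ℕ

/-- coordinates (from 0) of Black king, rook, White king -/
structure Co where
  b1 : ℕ
  b2 : ℕ
  r1 : ℕ
  r2 : ℕ
  k1 : ℕ
  k2 : ℕ

def ix (g : Geo) (a : Co) : ℕ :=
  a.b1 + g.A * (a.b2 + g.B * (a.r1 + g.M * (a.r2 + g.N * (a.k1 + g.M * a.k2))))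

structure InBox (g : Geo) (a : Co) : Prop where
  hb1 : a.b1 < g.A
  hb2 : a.b2 < g.B
  hr1 : a.r1 < g.M
  hr2 : a.r2 < g.N
  hk1 : a.k1 < g.M
  hk2 : a.k2 < g.N

def mem (g : Geo) (X : ℕ) (a : Co) : Prop := X.testBit (ix g a) = true

def tot (g : Geo) : ℕ := g.A * g.B * g.M * g.N * g.M * g.N

def full (g : Geo) : ℕ := 2 ^ tot g - 1

def cmp (g : Geo) (X : ℕ) : ℕ := full g ^^^ X

theorem radix_lt {a n q p : ℕ} (h1 : a < n) (h2 : q < p) : a + n * q < n * p := by
  have : n * (q + 1) ≤ n * p := Nat.mul_le_mul_left _ h2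
  rw [Nat.mul_succ] at this
  omega

theorem ix_lt {g : Geo} {a : Co} (h : InBox g a) : ix g a < tot g := by
  have h1 := radix_lt h.hk1 h.hk2
  have h2 := radix_lt h.hr2 h1
  have h3 := radix_lt h.hr1 h2
  have h4 := radix_lt h.hb2 h3
  have h5 := radix_lt h.hb1 h4
  have e : tot g = g.A * (g.B * (g.M * (g.N * (g.M * g.N)))) := by unfold tot; ring
  rw [e]
  exact h5

theorem mem_and {g : Geo} {X Y : ℕ} {a : Co} : mem g (X &&& Y) a ↔ mem g X a ∧ mem g Y a := by
  unfold mem; rw [Nat.testBit_and]; simp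

theorem mem_or {g : Geo} {X Y : ℕ} {a : Co} : mem g (X ||| Y) a ↔ mem g X a ∨ mem g Y a := by
  unfold mem; rw [Nat.testBit_or]; simp

theorem mem_full {g : Geo} {a : Co} (h : InBox g a) : mem g (full g) a := by
  unfold mem full
  rw [Nat.testBit_two_pow_sub_one]
  simpa using ix_lt h

theorem mem_cmp {g : Geo} {X : ℕ} {a : Co} (h : InBox g a) : mem g (cmp g X) a ↔ ¬ mem g X a := by
  have h1 := mem_full h
  unfold mem at h1 ⊢
  rw [cmp, Nat.testBit_xor, h1]
  simp

/-- one coordinate of the box -/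
structure Axis (g : Geo) where
  w : ℕ
  n : ℕ
  os : List ℕ
  get : Co → ℕ
  set : Co → ℕ → Co
  dec : ∀ a, InBox g a → ∃ lo hi, lo < w ∧ hi < os.prod ∧ ∀ c, ix g (set a c) = lo + w * (c + n * hi)
  set_get : ∀ a, set a (get a) = a
  get_set : ∀ a c, get (set a c) = c
  set_set : ∀ a c d, set (set a c) d = set a d
  lt : ∀ a, InBox g a → get a < n
  box : ∀ a c, InBox g a → c < n → InBox g (set a c)

def axb1 (g : Geo) : Axis g where
  w := 1
  n := g.A
  os := [g.B, g.M, g.N, g.M, g.N]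
  get a := a.b1
  set a c := { a with b1 := c }
  dec a h := by
    refine ⟨0, a.b2 + g.B * (a.r1 + g.M * (a.r2 + g.N * (a.k1 + g.M * a.k2))), by norm_num, ?_, ?_⟩
    · have := radix_lt h.hb2 (radix_lt h.hr1 (radix_lt h.hr2 (radix_lt h.hk1 h.hk2)))
      simpa using this
    · intro c; simp [ix]
  set_get a := rfl
  get_set a c := rfl
  set_set a c d := rfl
  lt a h := h.hb1
  box a c h hc := ⟨hc, h.hb2, h.hr1, h.hr2, h.hk1, h.hk2⟩

def axb2 (g : Geo) : Axis g where
  w := g.A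
  n := g.B
  os := [g.M, g.N, g.M, g.N]
  get a := a.b2
  set a c := { a with b2 := c }
  dec a h := by
    refine ⟨a.b1, a.r1 + g.M * (a.r2 + g.N * (a.k1 + g.M * a.k2)), h.hb1, ?_, ?_⟩
    · have := radix_lt h.hr1 (radix_lt h.hr2 (radix_lt h.hk1 h.hk2))
      simpa using this
    · intro c; simp [ix]
  set_get a := rfl
  get_set a c := rfl
  set_set a c d := rfl
  lt a h := h.hb2
  box a c h hc := ⟨h.hb1, hc, h.hr1, h.hr2, h.hk1, h.hk2⟩

def axr1 (g : Geo) : Axis g where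
  w := g.A * g.B
  n := g.M
  os := [g.N, g.M, g.N]
  get a := a.r1
  set a c := { a with r1 := c }
  dec a h := by
    refine ⟨a.b1 + g.A * a.b2, a.r2 + g.N * (a.k1 + g.M * a.k2), radix_lt h.hb1 h.hb2, ?_, ?_⟩
    · have := radix_lt h.hr2 (radix_lt h.hk1 h.hk2)
      simpa using this
    · intro c; simp only [ix]; ring
  set_get a := rfl
  get_set a c := rfl
  set_set a c d := rfl
  lt a h := h.hr1
  box a c h hc := ⟨h.hb1, h.hb2, hc, h.hr2, h.hk1, h.hk2⟩

def axr2 (g : Geo) : Axis g where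
  w := g.A * g.B * g.M
  n := g.N
  os := [g.M, g.N]
  get a := a.r2
  set a c := { a with r2 := c }
  dec a h := by
    refine ⟨a.b1 + g.A * (a.b2 + g.B * a.r1), a.k1 + g.M * a.k2, ?_, ?_, ?_⟩
    · have := radix_lt h.hb1 (radix_lt h.hb2 h.hr1)
      rwa [← mul_assoc] at this
    · have := radix_lt h.hk1 h.hk2
      simpa using this
    · intro c; simp only [ix]; ring
  set_get a := rfl
  get_set a c := rfl
  set_set a c d := rfl
  lt a h := h.hr2
  box a c h hc := ⟨h.hb1, h.hb2, h.hr1, hc, h.hk1, h.hk2⟩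

def axk1 (g : Geo) : Axis g where
  w := g.A * g.B * g.M * g.N
  n := g.M
  os := [g.N]
  get a := a.k1
  set a c := { a with k1 := c }
  dec a h := by
    refine ⟨a.b1 + g.A * (a.b2 + g.B * (a.r1 + g.M * a.r2)), a.k2, ?_, ?_, ?_⟩
    · have := radix_lt h.hb1 (radix_lt h.hb2 (radix_lt h.hr1 h.hr2))
      have e : g.A * (g.B * (g.M * g.N)) = g.A * g.B * g.M * g.N := by ring
      rwa [e] at this
    · simpa using h.hk2
    · intro c; simp only [ix]; ring
  set_get a := rfl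
  get_set a c := rfl
  set_set a c d := rfl
  lt a h := h.hk1
  box a c h hc := ⟨h.hb1, h.hb2, h.hr1, h.hr2, hc, h.hk2⟩

def axk2 (g : Geo) : Axis g where
  w := g.A * g.B * g.M * g.N * g.M
  n := g.N
  os := []
  get a := a.k2
  set a c := { a with k2 := c }
  dec a h := by
    refine ⟨a.b1 + g.A * (a.b2 + g.B * (a.r1 + g.M * (a.r2 + g.N * a.k1))), 0, ?_, by simp, ?_⟩
    · have := radix_lt h.hb1 (radix_lt h.hb2 (radix_lt h.hr1 (radix_lt h.hr2 h.hk1)))
      have e : g.A * (g.B * (g.M * (g.N * g.M))) = g.A * g.B * g.M * g.N * g.M := by ring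
      rwa [e] at this
    · intro c; simp only [ix]; ring
  set_get a := rfl
  get_set a c := rfl
  set_set a c d := rfl
  lt a h := h.hk2
  box a c h hc := ⟨h.hb1, h.hb2, h.hr1, h.hr2, h.hk1, hc⟩

section axis

variable {g : Geo} (x : Axis g)

def sl (p : ℕ → Bool) : ℕ := slab x.w x.n x.os p

theorem mem_sl {p : ℕ → Bool} {a : Co} (h : InBox g a) : mem g (sl x p) a ↔ p (x.get a) = true := by
  obtain ⟨lo, hi, h1, h2, h3⟩ := x.dec a h
  have h4 := h3 (x.get a)
  rw [x.set_get] at h4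
  unfold mem sl
  rw [h4, testBit_slab h1 (x.lt a h) h2]

/-- membership of the point with the coordinate raised by `t` -/
def upt (t : ℕ) (X : ℕ) : ℕ := (X >>> (x.w * t)) &&& sl x (fun c => Nat.blt (c + t) x.n)

def dnt (t : ℕ) (X : ℕ) : ℕ := (X <<< (x.w * t)) &&& sl x (fun c => Nat.ble t c)

theorem mem_upt {t X : ℕ} {a : Co} (h : InBox g a) :
    mem g (upt x t X) a ↔ x.get a + t < x.n ∧ mem g X (x.set a (x.get a + t)) := by
  obtain ⟨lo, hi, h1, h2, h3⟩ := x.dec a h
  have h4 := h3 (x.get a)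
  rw [x.set_get] at h4
  rw [upt, mem_and, mem_sl x h, and_comm]
  refine and_congr (by simp [Nat.blt_eq]) ?_
  unfold mem
  rw [Nat.testBit_shiftRight, h3, h4]
  have e : x.w * t + (lo + x.w * (x.get a + x.n * hi)) = lo + x.w * (x.get a + t + x.n * hi) := by
    ring
  rw [e]

theorem mem_dnt {t X : ℕ} {a : Co} (h : InBox g a) :
    mem g (dnt x t X) a ↔ t ≤ x.get a ∧ mem g X (x.set a (x.get a - t)) := by
  obtain ⟨lo, hi, h1, h2, h3⟩ := x.dec a h
  have h4 := h3 (x.get a)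
  rw [x.set_get] at h4
  rw [dnt, mem_and, mem_sl x h, and_comm]
  have e0 : (Nat.ble t (x.get a) = true) ↔ t ≤ x.get a := by simp
  rw [e0]
  refine and_congr_right fun ht => ?_
  unfold mem
  rw [Nat.testBit_shiftLeft, h3, h4]
  have e : lo + x.w * (x.get a + x.n * hi) = x.w * t + (lo + x.w * (x.get a - t + x.n * hi)) := by
    obtain ⟨d, hd⟩ := Nat.exists_eq_add_of_le ht
    rw [hd, Nat.add_sub_cancel_left]
    ring
  rw [e]
  have e1 : x.w * t + (lo + x.w * (x.get a - t + x.n * hi)) ≥ x.w * t := Nat.le_add_right _ _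
  simp

def up (X : ℕ) : ℕ := upt x 1 X

def dn (X : ℕ) : ℕ := dnt x 1 X

theorem mem_up {X : ℕ} {a : Co} (h : InBox g a) :
    mem g (up x X) a ↔ x.get a + 1 < x.n ∧ mem g X (x.set a (x.get a + 1)) := mem_upt x h

theorem mem_dn {X : ℕ} {a : Co} (h : InBox g a) :
    mem g (dn x X) a ↔ 1 ≤ x.get a ∧ mem g X (x.set a (x.get a - 1)) := mem_dnt x h

end axis

/-- two coordinates of the box -/
structure Pair (g : Geo) where
  w : ℕ
  n : ℕ
  ms : List ℕ
  n' : ℕ
  os : List ℕ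
  get : Co → ℕ
  get' : Co → ℕ
  dec : ∀ a, InBox g a → ∃ lo t hi, lo < w ∧ t < ms.prod ∧ hi < os.prod ∧ get a < n ∧ get' a < n' ∧
    ix g a = lo + w * (get a + n * (t + ms.prod * (get' a + n' * hi)))

def rl {g : Geo} (x : Pair g) (p : ℕ → ℕ → Bool) : ℕ := rel x.w x.n x.ms x.n' x.os p

theorem mem_rl {g : Geo} (x : Pair g) {p : ℕ → ℕ → Bool} {a : Co} (h : InBox g a) :
    mem g (rl x p) a ↔ p (x.get a) (x.get' a) = true := by
  obtain ⟨lo, t, hi, h1, h2, h3, h4, h5, h6⟩ := x.dec a h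
  unfold mem rl
  rw [h6, testBit_rel h1 h4 h2 h5 h3]

/-- files of Black king and rook -/
def pbr1 (g : Geo) : Pair g where
  w := 1
  n := g.A
  ms := [g.B]
  n' := g.M
  os := [g.N, g.M, g.N]
  get a := a.b1
  get' a := a.r1
  dec a h := by
    refine ⟨0, a.b2, a.r2 + g.N * (a.k1 + g.M * a.k2), by norm_num, ?_, ?_, h.hb1, h.hr1, ?_⟩
    · simpa using h.hb2
    · simpa using radix_lt h.hr2 (radix_lt h.hk1 h.hk2)
    · simp [ix]

/-- ranks of Black king and rook -/
def pbr2 (g : Geo) : Pair g where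
  w := g.A
  n := g.B
  ms := [g.M]
  n' := g.N
  os := [g.M, g.N]
  get a := a.b2
  get' a := a.r2
  dec a h := by
    refine ⟨a.b1, a.r1, a.k1 + g.M * a.k2, h.hb1, ?_, ?_, h.hb2, h.hr2, ?_⟩
    · simpa using h.hr1
    · simpa using radix_lt h.hk1 h.hk2
    · simp [ix]

/-- files of Black king and White king -/
def pbk1 (g : Geo) : Pair g where
  w := 1
  n := g.A
  ms := [g.B, g.M, g.N]
  n' := g.M
  os := [g.N]
  get a := a.b1
  get' a := a.k1
  dec a h := by
    refine ⟨0, a.b2 + g.B * (a.r1 + g.M * a.r2), a.k2, by norm_num, ?_, ?_, h.hb1, h.hk1, ?_⟩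
    · simpa using radix_lt h.hb2 (radix_lt h.hr1 h.hr2)
    · simpa using h.hk2
    · simp only [ix, List.prod_cons, List.prod_nil]; ring

/-- ranks of Black king and White king -/
def pbk2 (g : Geo) : Pair g where
  w := g.A
  n := g.B
  ms := [g.M, g.N, g.M]
  n' := g.N
  os := []
  get a := a.b2
  get' a := a.k2
  dec a h := by
    refine ⟨a.b1, a.r1 + g.M * (a.r2 + g.N * a.k1), 0, h.hb1, ?_, by simp, h.hb2, h.hk2, ?_⟩
    · simpa using radix_lt h.hr1 (radix_lt h.hr2 h.hk1)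
    · simp only [ix, List.prod_cons, List.prod_nil]; ring

/-- files of rook and White king -/
def prk1 (g : Geo) : Pair g where
  w := g.A * g.B
  n := g.M
  ms := [g.N]
  n' := g.M
  os := [g.N]
  get a := a.r1
  get' a := a.k1
  dec a h := by
    refine ⟨a.b1 + g.A * a.b2, a.r2, a.k2, radix_lt h.hb1 h.hb2, ?_, ?_, h.hr1, h.hk1, ?_⟩
    · simpa using h.hr2
    · simpa using h.hk2
    · simp only [ix, List.prod_cons, List.prod_nil]; ring

/-- ranks of rook and White king -/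
def prk2 (g : Geo) : Pair g where
  w := g.A * g.B * g.M
  n := g.N
  ms := [g.M]
  n' := g.N
  os := []
  get a := a.r2
  get' a := a.k2
  dec a h := by
    refine ⟨a.b1 + g.A * (a.b2 + g.B * a.r1), a.k1, 0, ?_, ?_, by simp, h.hr2, h.hk2, ?_⟩
    · have := radix_lt h.hb1 (radix_lt h.hb2 h.hr1)
      rwa [← mul_assoc] at this
    · simpa using h.hk1
    · simp only [ix, List.prod_cons, List.prod_nil]; ring

end K1H58.KR
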