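import Pool.Agent.K1H58.KR.AxRel

/-!
# Soundness of the relaxed game in which Black tries to survive
-/

set_option autoImplicit false

namespace K1H58.KR

/-- the board described by a configuration -/
def Cfg.board (c : Cfg) : Board := ⟨cond c.rx ⊤ (c.A : ℕ∞), cond c.ry ⊤ (c.B : ℕ∞), true⟩

theorem Cfg.on_iff {c : Cfg} {s : Sq} : c.board.On s ↔
    1 ≤ s.1 ∧ 1 ≤ s.2 ∧ (c.rx = false → s.1 ≤ c.A) ∧ (c.ry = false → s.2 ≤ c.B) := by
  obtain ⟨A, B, rx, ry⟩ := c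
  cases rx <;> cases ry <;> simp [Cfg.board, Board.On]

structure Rel (c : Cfg) (p : Pos) (a : Co) : Prop where
  x : ∃ s, AxR c.A c.rx s p.wk.1 p.wr.1 p.bk.1 a.k1 a.r1 a.b1
  y : ∃ s, AxR c.B c.ry s p.wk.2 p.wr.2 p.bk.2 a.k2 a.r2 a.b2

structure Big (c : Cfg) : Prop where
  hA : 3 ≤ c.A
  hB : 3 ≤ c.B

theorem Rel.inBox {c : Cfg} {p : Pos} {a : Co} (h : Rel c p a) (hc : Big c) :
    InBox c.g a := by
  obtain ⟨⟨s, hx⟩, ⟨t, hy⟩⟩ := h
  exact ⟨hx.hb, hy.hb, hx.rlt hc.hA, hy.rlt hc.hB, hx.klt hc.hA, hy.klt hc.hB⟩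

/-! ### Masks -/

section masks
variable {g : Geo} {a : Co}

theorem mem_mNKB (h : InBox g a) :
    mem g (mNKB g) a ↔ NearN a.b1 a.k1 ∧ NearN a.b2 a.k2 := by
  rw [mNKB, mem_and, mem_rl _ h, mem_rl _ h]
  exact and_congr nearB_iff nearB_iff

theorem mem_mNRB (h : InBox g a) :
    mem g (mNRB g) a ↔ NearN a.b1 a.r1 ∧ NearN a.b2 a.r2 := by
  rw [mNRB, mem_and, mem_rl _ h, mem_rl _ h]
  exact and_congr nearB_iff nearB_iff

theorem mem_mNKR (h : InBox g a) :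
    mem g (mNKR g) a ↔ NearN a.r1 a.k1 ∧ NearN a.r2 a.k2 := by
  rw [mNKR, mem_and, mem_rl _ h, mem_rl _ h]
  exact and_congr nearB_iff nearB_iff

theorem mem_mX (h : InBox g a) : mem g (mX g) a ↔ a.b1 = a.r1 := by
  rw [mX, mem_rl _ h]; exact Iff.of_eq Nat.beq_eq

theorem mem_mY (h : InBox g a) : mem g (mY g) a ↔ a.b2 = a.r2 := by
  rw [mY, mem_rl _ h]; exact Iff.of_eq Nat.beq_eq

theorem mem_mXk (h : InBox g a) : mem g (mXk g) a ↔ a.r1 = a.k1 := by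
  rw [mXk, mem_rl _ h]; exact Iff.of_eq Nat.beq_eq

theorem mem_mYk (h : InBox g a) : mem g (mYk g) a ↔ a.r2 = a.k2 := by
  rw [mYk, mem_rl _ h]; exact Iff.of_eq Nat.beq_eq

theorem mem_mEq (h : InBox g a) : mem g (mEq g) a ↔ a.b1 = a.r1 ∧ a.b2 = a.r2 := by
  rw [mEq, mem_and, mem_mX h, mem_mY h]

theorem mem_mB1 (h : InBox g a) : mem g (mB1 g) a ↔ Strict a.r1 a.k1 a.b1 := by
  rw [mB1, mem_or, mem_and, mem_and, mem_rl _ h, mem_rl _ h, mem_rl _ h, mem_rl _ h]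
  simp only [Nat.blt_eq]
  unfold Strict
  exact or_congr Iff.rfl and_comm

theorem mem_mB2 (h : InBox g a) : mem g (mB2 g) a ↔ Strict a.r2 a.k2 a.b2 := by
  rw [mB2, mem_or, mem_and, mem_and, mem_rl _ h, mem_rl _ h, mem_rl _ h, mem_rl _ h]
  simp only [Nat.blt_eq]
  unfold Strict
  exact or_congr Iff.rfl and_comm

theorem mem_mAtt (h : InBox g a) : mem g (mAtt g) a ↔
    (a.b1 = a.r1 ∧ ¬ (a.r1 = a.k1 ∧ Strict a.r2 a.k2 a.b2)) ∨
    (a.b2 = a.r2 ∧ ¬ (a.r2 = a.k2 ∧ Strict a.r1 a.k1 a.b1)) := by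
  rw [mAtt, mem_or, mem_and, mem_and, mem_cmp h, mem_cmp h, mem_and, mem_and, mem_mX h, mem_mY h,
    mem_mXk h, mem_mYk h, mem_mB1 h, mem_mB2 h]

theorem mem_mLegal (h : InBox g a) : mem g (mLegal g) a ↔
    ¬ mem g (mNKB g) a ∧ ¬ mem g (mEq g) a ∧ ¬ mem g (mAtt g) a := by
  rw [mLegal, mem_cmp h, mem_or, mem_or]
  tauto

theorem mem_mPT (h : InBox g a) : mem g (mPT g) a ↔
    ¬ mem g (mNKB g) a ∧ (mem g (mEq g) a ∨ ¬ mem g (mAtt g) a) := by
  rw [mPT, mem_and, mem_or, mem_cmp h, mem_cmp h]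

theorem mem_mCap (h : InBox g a) : mem g (mCap g) a ↔
    mem g (mNRB g) a ∧ ¬ mem g (mEq g) a ∧ ¬ mem g (mNKR g) a := by
  rw [mCap, mem_and, mem_cmp h, mem_or]
  tauto

end masks

theorem near_iff {s t : Sq} : Near s t ↔ NearN s.1 t.1 ∧ NearN s.2 t.2 := by
  unfold Near NearN; tauto

section real
variable {c : Cfg} {p : Pos} {a : Co}

theorem Rel.nkb (h : Rel c p a) (hc : Big c) : mem c.g (mNKB c.g) a ↔ Near p.wk p.bk := by
  rw [mem_mNKB (h.inBox hc), near_iff]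
  obtain ⟨⟨s, hx⟩, ⟨t, hy⟩⟩ := h
  rw [hx.nearKB hc.hA, hy.nearKB hc.hB]

theorem Rel.nrb (h : Rel c p a) (hc : Big c) : mem c.g (mNRB c.g) a ↔ Near p.wr p.bk := by
  rw [mem_mNRB (h.inBox hc), near_iff]
  obtain ⟨⟨s, hx⟩, ⟨t, hy⟩⟩ := h
  rw [hx.nearRB hc.hA, hy.nearRB hc.hB]

theorem Rel.nkr (h : Rel c p a) (hc : Big c) (hn : Near p.wk p.wr) : mem c.g (mNKR c.g) a := by
  rw [near_iff] at hn
  rw [mem_mNKR (h.inBox hc)]
  obtain ⟨⟨s, hx⟩, ⟨t, hy⟩⟩ := h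
  exact ⟨hx.nearKR hc.hA hn.1, hy.nearKR hc.hB hn.2⟩

theorem Rel.eqx (h : Rel c p a) (hc : Big c) : p.wr.1 = p.bk.1 ↔ a.b1 = a.r1 := by
  obtain ⟨⟨s, hx⟩, ⟨t, hy⟩⟩ := h
  exact hx.eqRB hc.hA

theorem Rel.eqy (h : Rel c p a) (hc : Big c) : p.wr.2 = p.bk.2 ↔ a.b2 = a.r2 := by
  obtain ⟨⟨s, hx⟩, ⟨t, hy⟩⟩ := h
  exact hy.eqRB hc.hB

theorem Rel.eqv (h : Rel c p a) (hc : Big c) : mem c.g (mEq c.g) a ↔ p.wr = p.bk := by
  rw [mem_mEq (h.inBox hc), ← h.eqx hc, ← h.eqy hc, Prod.ext_iff]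

theorem Rel.att (h : Rel c p a) (hc : Big c) (ha : Attacks p.wk p.wr p.bk) :
    mem c.g (mAtt c.g) a := by
  rw [mem_mAtt (h.inBox hc)]
  obtain ⟨⟨h1, h2⟩, h3⟩ := ha
  rcases h2 with h2 | h2
  · refine Or.inl ⟨(h.eqx hc).1 h2, fun h4 => h3 ?_⟩
    obtain ⟨h5, h6⟩ := h4
    have h7 := (h.eqx hc).1 h2
    obtain ⟨⟨s, hx⟩, ⟨t, hy⟩⟩ := h
    have h8 := (hx.eqKB hc.hA).2 (h7.trans h5)
    exact Or.inl ⟨h2.trans h8.symm, h8, hy.strict hc.hB h6⟩
  · refine Or.inr ⟨(h.eqy hc).1 h2, fun h4 => h3 ?_⟩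
    obtain ⟨h5, h6⟩ := h4
    have h7 := (h.eqy hc).1 h2
    obtain ⟨⟨s, hx⟩, ⟨t, hy⟩⟩ := h
    have h8 := (hy.eqKB hc.hB).2 (h7.trans h5)
    exact Or.inr ⟨h2.trans h8.symm, h8, hx.strict hc.hA h6⟩

theorem Rel.legal (h : Rel c p a) (hc : Big c) (hm : mem c.g (mLegal c.g) a) :
    ¬ Near p.wk p.bk ∧ p.wr ≠ p.bk ∧ ¬ Attacks p.wk p.wr p.bk := by
  rw [mem_mLegal (h.inBox hc)] at hm
  exact ⟨fun e => hm.1 ((h.nkb hc).2 e), fun e => hm.2.1 ((h.eqv hc).2 e),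
    fun e => hm.2.2 (h.att hc e)⟩

end real

/-! ### Steps along axes -/

section steps
variable {g : Geo}

theorem mem_rollU {x : Axis g} {X : ℕ} {a : Co} (ha : InBox g a) (h : mem g (rollU x X) a)
    {c' : ℕ} (hc : OptU x.n (x.get a) c') : mem g X (x.set a c') := by
  rw [rollU, mem_or, mem_and, mem_and, mem_or, mem_dn x ha, mem_sl x ha, mem_sl x ha] at h
  simp only [Nat.blt_eq, Nat.beq_eq] at h
  rcases hc with ⟨h1, h2 | ⟨h2, h3⟩⟩ | ⟨h1, h2⟩
  · rcases h with ⟨⟨-, h3⟩, -⟩ | ⟨h3, -⟩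
    · have e : c' = x.get a - 1 := by omega
      rw [e]; exact h3
    · omega
  · rcases h with ⟨-, h4 | h4⟩ | ⟨h4, -⟩
    · omega
    · rw [h3, x.set_get]; exact h4
    · omega
  · rcases h with ⟨⟨h3, -⟩, -⟩ | ⟨-, h3⟩
    · omega
    · rw [h2, ← h1, x.set_get]; exact h3

theorem mem_rollD {x : Axis g} {X : ℕ} {a : Co} (ha : InBox g a) (h : mem g (rollD x X) a)
    {c' : ℕ} (hc : OptD x.n (x.get a) c') : mem g X (x.set a c') := by
  rw [rollD, mem_or, mem_and, mem_and, mem_or, mem_up x ha, mem_sl x ha, mem_sl x ha] at h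
  simp only [Nat.ble_eq, Nat.beq_eq] at h
  rcases hc with ⟨h1, h2 | ⟨h2, h3⟩⟩ | ⟨h1, h2⟩
  · rcases h with ⟨⟨-, h3⟩, -⟩ | ⟨h3, -⟩
    · rw [h2]; exact h3
    · omega
  · rcases h with ⟨-, h4 | h4⟩ | ⟨h4, -⟩
    · omega
    · rw [h3, ← h2, x.set_get]; exact h4
    · omega
  · rcases h with ⟨⟨h3, -⟩, -⟩ | ⟨-, h3⟩
    · omega
    · rw [h2, x.set_get]; exact h3

theorem mem_stepU {roll : Bool} {x y z : Axis g} {X : ℕ} {a : Co} (ha : InBox g a)
    (h : mem g (stepU roll x y z X) a)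
    (hbox : ∀ c', OptU y.n (y.get a) c' → InBox g (y.set a c')) :
    (x.get a + 1 < x.n ∧ mem g X (x.set a (x.get a + 1))) ∨
    (roll = true ∧ x.get a + 1 = x.n ∧ ∀ c' c'', OptU y.n (y.get a) c' →
      OptU z.n (z.get (y.set a c')) c'' → mem g X (z.set (y.set a c') c'')) := by
  rw [stepU, mem_or, mem_up x ha] at h
  rcases h with h | h
  · exact Or.inl h
  · cases roll with
    | false => simp [mem] at h
    | true =>
      rw [cond_true, mem_and, mem_sl x ha] at h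
      simp only [Nat.beq_eq] at h
      exact Or.inr ⟨rfl, h.1, fun c' c'' h1 h2 => mem_rollU (hbox _ h1) (mem_rollU ha h.2 h1) h2⟩

theorem mem_stepD {roll : Bool} {x y z : Axis g} {X : ℕ} {a : Co} (ha : InBox g a)
    (h : mem g (stepD roll x y z X) a)
    (hbox : ∀ c', OptD y.n (y.get a) c' → InBox g (y.set a c')) :
    1 ≤ x.get a ∧ mem g X (x.set a (x.get a - 1)) ∧
    (roll = true → x.get a + 1 < x.n ∨ ∀ c' c'', OptD y.n (y.get a) c' →
      OptD z.n (z.get (y.set a c')) c'' → mem g X (z.set (y.set a c') c'')) := by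
  cases roll with
  | false =>
    rw [stepD, cond_false, mem_dn x ha] at h
    exact ⟨h.1, h.2, by simp⟩
  | true =>
    rw [stepD, cond_true, mem_and, mem_dn x ha, mem_or, mem_sl x ha] at h
    simp only [Nat.blt_eq] at h
    refine ⟨h.1.1, h.1.2, fun _ => ?_⟩
    rcases h.2 with h1 | h1
    · exact Or.inl h1
    · exact Or.inr fun c' c'' h2 h3 => mem_rollD (hbox _ h2) (mem_rollD ha h1 h2) h3

theorem mem_thick {x : Axis g} {X : ℕ} {a : Co} (ha : InBox g a) {c' : ℕ}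
    (h : NearN (x.get a) c') (hc : c' < x.n) (hX : mem g X (x.set a c')) :
    mem g (thick x X) a := by
  rw [thick, mem_or, mem_or, mem_up x ha, mem_dn x ha]
  unfold NearN at h
  rcases (by omega : c' = x.get a ∨ c' = x.get a + 1 ∨ (1 ≤ x.get a ∧ c' = x.get a - 1)) with
    e | e | ⟨e1, e⟩
  · rw [e, x.set_get] at hX; exact Or.inl (Or.inl hX)
  · subst e; exact Or.inl (Or.inr ⟨hc, hX⟩)
  · subst e; exact Or.inr ⟨e1, hX⟩

/-- one doubling upwards -/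
theorem spread_up {x : Axis g} {t : ℕ} {X Y : ℕ}
    (h : ∀ a, InBox g a → ∀ d < t, x.get a + d < x.n → mem g X (x.set a (x.get a + d)) →
      mem g Y a) {a : Co} (ha : InBox g a) {d : ℕ} (hd : d < 2 * t) (hn : x.get a + d < x.n)
    (hX : mem g X (x.set a (x.get a + d))) : mem g (sprU x t Y) a := by
  rw [sprU, mem_or, mem_upt x ha]
  rcases Nat.lt_or_ge d t with h1 | h1
  · exact Or.inl (h a ha d h1 hn hX)
  · refine Or.inr ⟨by omega, h _ (x.box _ _ ha (by omega)) (d - t) (by omega) ?_ ?_⟩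
    · rw [x.get_set]; omega
    · rw [x.get_set, x.set_set]
      have e : x.get a + t + (d - t) = x.get a + d := by omega
      rw [e]; exact hX

theorem spread_dn {x : Axis g} {t : ℕ} {X Y : ℕ}
    (h : ∀ a, InBox g a → ∀ d < t, d ≤ x.get a → mem g X (x.set a (x.get a - d)) →
      mem g Y a) {a : Co} (ha : InBox g a) {d : ℕ} (hd : d < 2 * t) (hn : d ≤ x.get a)
    (hX : mem g X (x.set a (x.get a - d))) : mem g (sprD x t Y) a := by
  rw [sprD, mem_or, mem_dnt x ha]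
  rcases Nat.lt_or_ge d t with h1 | h1
  · exact Or.inl (h a ha d h1 hn hX)
  · have h3 := x.lt a ha
    refine Or.inr ⟨by omega, h _ (x.box _ _ ha (by omega)) (d - t) (by omega) ?_ ?_⟩
    · rw [x.get_set]; omega
    · rw [x.get_set, x.set_set]
      have e : x.get a - t - (d - t) = x.get a - d := by omega
      rw [e]; exact hX

theorem mem_line {x : Axis g} {X : ℕ} {a : Co} (ha : InBox g a) {c' : ℕ} (h16 : x.n ≤ 16)
    (hc : c' < x.n) (hX : mem g X (x.set a c')) : mem g (line x X) a := by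
  have h3 := x.lt a ha
  have u0 : ∀ a, InBox g a → ∀ d < 1, x.get a + d < x.n → mem g X (x.set a (x.get a + d)) →
      mem g X a := by
    intro a ha d hd hn hX
    have e : x.get a + d = x.get a := by omega
    rwa [e, x.set_get] at hX
  have u1 := fun a (ha : InBox g a) d hd hn hX => spread_up (x := x) u0 ha (d := d) hd hn hX
  have u2 := fun a (ha : InBox g a) d hd hn hX => spread_up (x := x) u1 ha (d := d) hd hn hX
  have u3 := fun a (ha : InBox g a) d hd hn hX => spread_up (x := x) u2 ha (d := d) hd hn hX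
  have u4 := fun a (ha : InBox g a) d hd hn hX => spread_up (x := x) u3 ha (d := d) hd hn hX
  have v0 : ∀ Y, ∀ a, InBox g a → ∀ d < 1, d ≤ x.get a → mem g Y (x.set a (x.get a - d)) →
      mem g Y a := by
    intro Y a ha d hd hn hX
    have e : x.get a - d = x.get a := by omega
    rwa [e, x.set_get] at hX
  have v1 := fun Y a (ha : InBox g a) d hd hn hX => spread_dn (x := x) (v0 Y) ha (d := d) hd hn hX
  have v2 := fun Y a (ha : InBox g a) d hd hn hX => spread_dn (x := x) (v1 Y) ha (d := d) hd hn hX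
  have v3 := fun Y a (ha : InBox g a) d hd hn hX => spread_dn (x := x) (v2 Y) ha (d := d) hd hn hX
  have v4 := fun Y a (ha : InBox g a) d hd hn hX => spread_dn (x := x) (v3 Y) ha (d := d) hd hn hX
  unfold line
  rcases Nat.le_total (x.get a) c' with h4 | h4
  · have h5 := u4 a ha (c' - x.get a) (by omega) (by omega) (by
      have e : x.get a + (c' - x.get a) = c' := by omega
      rw [e]; exact hX)
    refine v4 _ a ha 0 (by omega) (by omega) ?_
    rw [Nat.sub_zero, x.set_get]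
    exact h5
  · have hb := x.box a c' ha hc
    have h5 := u4 (x.set a c') hb 0 (by omega) (by rw [x.get_set]; omega) (by
      rw [x.get_set, Nat.add_zero, x.set_set]; exact hX)
    refine v4 _ a ha (x.get a - c') (by omega) (by omega) ?_
    have e : x.get a - (x.get a - c') = c' := by omega
    rw [e]
    exact h5

end steps

end K1H58.KR
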