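import Pool.Agent.K1H58.KR.Neg

/-!
# Soundness of the relaxed game in which Black tries to survive: the two kinds of moves
-/

set_option autoImplicit false

namespace K1H58.KR

section
variable {c : Cfg} {p : Pos} {a : Co}

theorem M_eq (c : Cfg) : c.M = Wd c.A c.rx := rfl

theorem N_eq (c : Cfg) : c.N = Wd c.B c.ry := rfl

theorem optU_lt {n u v : ℕ} (h : OptU n u v) (hu : u < n) : v < n := by
  unfold OptU at h; omega

theorem optD_lt {n u v : ℕ} (h : OptD n u v) : v < n := by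
  unfold OptD at h; omega

/-- Black king moves one file up, in the table -/
theorem Rel.xU (h : Rel c p a) (hc : Big c) {X : ℕ}
    (hm : mem c.g (stepU c.rx (axb1 c.g) (axr1 c.g) (axk1 c.g) X) a) :
    ∃ a', Rel c ⟨p.wk, p.wr, (p.bk.1 + 1, p.bk.2)⟩ a' ∧ mem c.g X a' := by
  have hb := h.inBox hc
  have h1 := mem_stepU hb hm fun c' h' => (axr1 c.g).box _ _ hb (optU_lt h' hb.hr1)
  obtain ⟨⟨s, hx⟩, hy⟩ := h
  obtain ⟨s', k', r', b', h2, h3⟩ := hx.stepU hc.hA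
    (P := fun k r b => mem c.g X ⟨b, a.b2, r, a.r2, k, a.k2⟩) (by
      rcases h1 with h1 | ⟨h1, h2, h3⟩
      · exact Or.inl h1
      · exact Or.inr ⟨h1, h2, fun k' r' hk hr => h3 r' k' hr hk⟩)
  exact ⟨⟨b', a.b2, r', a.r2, k', a.k2⟩, ⟨⟨s', h2⟩, hy⟩, h3⟩

theorem Rel.xD (h : Rel c p a) (hc : Big c) {X : ℕ}
    (hm : mem c.g (stepD c.rx (axb1 c.g) (axr1 c.g) (axk1 c.g) X) a) :
    2 ≤ p.bk.1 ∧ ∃ a', Rel c ⟨p.wk, p.wr, (p.bk.1 - 1, p.bk.2)⟩ a' ∧ mem c.g X a' := by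
  have hb := h.inBox hc
  obtain ⟨h1, h2, h3⟩ := mem_stepD hb hm fun c' h' => (axr1 c.g).box _ _ hb (optD_lt h')
  obtain ⟨⟨s, hx⟩, hy⟩ := h
  obtain ⟨h4, s', k', r', b', h5, h6⟩ := hx.stepD hc.hA
    (P := fun k r b => mem c.g X ⟨b, a.b2, r, a.r2, k, a.k2⟩) h1 h2 (by
      intro hr
      rcases h3 hr with h3 | h3
      · exact Or.inl h3
      · exact Or.inr fun k' r' hk hr => h3 r' k' hr hk)
  exact ⟨h4, ⟨b', a.b2, r', a.r2, k', a.k2⟩, ⟨⟨s', h5⟩, hy⟩, h6⟩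

theorem Rel.yU (h : Rel c p a) (hc : Big c) {X : ℕ}
    (hm : mem c.g (stepU c.ry (axb2 c.g) (axr2 c.g) (axk2 c.g) X) a) :
    ∃ a', Rel c ⟨p.wk, p.wr, (p.bk.1, p.bk.2 + 1)⟩ a' ∧ mem c.g X a' := by
  have hb := h.inBox hc
  have h1 := mem_stepU hb hm fun c' h' => (axr2 c.g).box _ _ hb (optU_lt h' hb.hr2)
  obtain ⟨hx, ⟨s, hy⟩⟩ := h
  obtain ⟨s', k', r', b', h2, h3⟩ := hy.stepU hc.hB
    (P := fun k r b => mem c.g X ⟨a.b1, b, a.r1, r, a.k1, k⟩) (by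
      rcases h1 with h1 | ⟨h1, h2, h3⟩
      · exact Or.inl h1
      · exact Or.inr ⟨h1, h2, fun k' r' hk hr => h3 r' k' hr hk⟩)
  exact ⟨⟨a.b1, b', a.r1, r', a.k1, k'⟩, ⟨hx, ⟨s', h2⟩⟩, h3⟩

theorem Rel.yD (h : Rel c p a) (hc : Big c) {X : ℕ}
    (hm : mem c.g (stepD c.ry (axb2 c.g) (axr2 c.g) (axk2 c.g) X) a) :
    2 ≤ p.bk.2 ∧ ∃ a', Rel c ⟨p.wk, p.wr, (p.bk.1, p.bk.2 - 1)⟩ a' ∧ mem c.g X a' := by
  have hb := h.inBox hc
  obtain ⟨h1, h2, h3⟩ := mem_stepD hb hm fun c' h' => (axr2 c.g).box _ _ hb (optD_lt h')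
  obtain ⟨hx, ⟨s, hy⟩⟩ := h
  obtain ⟨h4, s', k', r', b', h5, h6⟩ := hy.stepD hc.hB
    (P := fun k r b => mem c.g X ⟨a.b1, b, a.r1, r, a.k1, k⟩) h1 h2 (by
      intro hr
      rcases h3 hr with h3 | h3
      · exact Or.inl h3
      · exact Or.inr fun k' r' hk hr => h3 r' k' hr hk)
  exact ⟨h4, ⟨a.b1, b', a.r1, r', a.k1, k'⟩, ⟨hx, ⟨s', h5⟩⟩, h6⟩

/-- a horizontal step, with target square -/
theorem Rel.xS (h : Rel c p a) (hc : Big c) {X : ℕ}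
    (hm : mem c.g (stepU c.rx (axb1 c.g) (axr1 c.g) (axk1 c.g) X |||
      stepD c.rx (axb1 c.g) (axr1 c.g) (axk1 c.g) X) a) :
    ∃ u, 1 ≤ u ∧ u ≠ p.bk.1 ∧ NearN p.bk.1 u ∧
      ∃ a', Rel c ⟨p.wk, p.wr, (u, p.bk.2)⟩ a' ∧ mem c.g X a' := by
  rcases mem_or.1 hm with hm | hm
  · obtain ⟨a', h1, h2⟩ := h.xU hc hm
    exact ⟨_, by omega, by omega, by unfold NearN; omega, a', h1, h2⟩
  · obtain ⟨h0, a', h1, h2⟩ := h.xD hc hm
    exact ⟨_, by omega, by omega, by unfold NearN; omega, a', h1, h2⟩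

theorem Rel.bk1 (h : Rel c p a) : 1 ≤ p.bk.1 := by
  obtain ⟨⟨s, hx⟩, -⟩ := h
  have := hx.hB
  omega

theorem Rel.bk2 (h : Rel c p a) : 1 ≤ p.bk.2 := by
  obtain ⟨-, ⟨s, hx⟩⟩ := h
  have := hx.hB
  omega

/-- a Black king step given by the table is a real one -/
theorem Rel.step (h : Rel c p a) (hc : Big c) {X H : ℕ}
    (hH : H = stepU c.rx (axb1 c.g) (axr1 c.g) (axk1 c.g) X |||
      stepD c.rx (axb1 c.g) (axr1 c.g) (axk1 c.g) X)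
    (hm : mem c.g (H ||| stepU c.ry (axb2 c.g) (axr2 c.g) (axk2 c.g) (X ||| H) |||
      stepD c.ry (axb2 c.g) (axr2 c.g) (axk2 c.g) (X ||| H)) a) :
    ∃ t, KingStep p.bk t ∧ 1 ≤ t.1 ∧ 1 ≤ t.2 ∧
      ∃ a', Rel c ⟨p.wk, p.wr, t⟩ a' ∧ mem c.g X a' := by
  have key : ∀ v, 1 ≤ v → v ≠ p.bk.2 → NearN p.bk.2 v → ∀ a',
      Rel c ⟨p.wk, p.wr, (p.bk.1, v)⟩ a' → mem c.g (X ||| H) a' →
      ∃ t, KingStep p.bk t ∧ 1 ≤ t.1 ∧ 1 ≤ t.2 ∧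
        ∃ a', Rel c ⟨p.wk, p.wr, t⟩ a' ∧ mem c.g X a' := by
    intro v h1 h2 h3 a' h4 h5
    rcases mem_or.1 h5 with h5 | h5
    · refine ⟨(p.bk.1, v), ⟨fun e => h2 (by rw [e]), near_iff.2 ⟨?_, h3⟩⟩, h.bk1, h1, a', h4, h5⟩
      unfold NearN; dsimp only; omega
    · rw [hH] at h5
      obtain ⟨u, g1, g2, g3, a'', g4, g5⟩ := h4.xS hc h5
      exact ⟨(u, v), ⟨fun e => h2 (by rw [e]), near_iff.2 ⟨g3, h3⟩⟩, g1, h1, a'', g4, g5⟩
  rcases mem_or.1 hm with hm | hm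
  · rcases mem_or.1 hm with hm | hm
    · rw [hH] at hm
      obtain ⟨u, g1, g2, g3, a'', g4, g5⟩ := h.xS hc hm
      refine ⟨(u, p.bk.2), ⟨fun e => g2 (by rw [e]), near_iff.2 ⟨g3, ?_⟩⟩, g1, h.bk2, a'', g4, g5⟩
      unfold NearN; dsimp only; omega
    · obtain ⟨a', h1, h2⟩ := h.yU hc hm
      exact key _ (by omega) (by omega) (by unfold NearN; omega) a' h1 h2
  · obtain ⟨h0, a', h1, h2⟩ := h.yD hc hm
    exact key _ (by omega) (by omega) (by unfold NearN; omega) a' h1 h2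

/-- points reached by a Black king step inside the plane -/
theorem mem_nbrB {g : Geo} {X : ℕ} (ha : InBox g a) {u v : ℕ} (hu : u < g.A) (hv : v < g.B)
    (hne : ¬ (u = a.b1 ∧ v = a.b2)) (h1 : NearN a.b1 u) (h2 : NearN a.b2 v)
    (hX : mem g X { a with b1 := u, b2 := v }) : mem g (nbrB g X) a := by
  have hor : ∀ a', InBox g a' → a'.b1 ≠ u → NearN a'.b1 u → mem g X { a' with b1 := u } →
      mem g (up (axb1 g) X ||| dn (axb1 g) X) a' := by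
    intro a' ha' h3 h4 h5
    rw [mem_or, mem_up _ ha', mem_dn _ ha']
    unfold NearN at h4
    rcases (by omega : u = a'.b1 + 1 ∨ (1 ≤ a'.b1 ∧ u = a'.b1 - 1)) with e | ⟨e1, e⟩
    · subst e; exact Or.inl ⟨hu, h5⟩
    · subst e; exact Or.inr ⟨e1, h5⟩
  unfold nbrB
  dsimp only
  rw [mem_or, mem_or, mem_up _ ha, mem_dn _ ha]
  by_cases e2 : v = a.b2
  · subst e2
    exact Or.inl (Or.inl (hor a ha (fun e => hne ⟨e.symm, rfl⟩) h1 hX))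
  · have hV : mem g (X ||| (up (axb1 g) X ||| dn (axb1 g) X)) { a with b2 := v } := by
      by_cases e1 : u = a.b1
      · subst e1; exact mem_or.2 (Or.inl hX)
      · refine mem_or.2 (Or.inr (hor _ ((axb2 g).box a v ha hv) (fun e => e1 e.symm) h1 hX))
    unfold NearN at h2
    rcases (by omega : v = a.b2 + 1 ∨ (1 ≤ a.b2 ∧ v = a.b2 - 1)) with e | ⟨e1, e⟩
    · subst e; exact Or.inl (Or.inr ⟨hv, hV⟩)
    · subst e; exact Or.inr ⟨e1, hV⟩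

end

end K1H58.KR
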