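import Pool.Agent.K1H58.KR.Neg2

/-!
# Soundness of the relaxed game in which Black tries to survive: conclusion
-/

set_option autoImplicit false

namespace K1H58.KR

theorem mem_cond0 {g : Geo} {r : Bool} {X : ℕ} {a : Co} :
    mem g (cond r X 0) a ↔ r = true ∧ mem g X a := by
  cases r <;> simp [mem]

theorem mem_cond1 {g : Geo} {r : Bool} {X : ℕ} {a : Co} :
    mem g (cond r 0 X) a ↔ r = false ∧ mem g X a := by
  cases r <;> simp [mem]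

theorem mem_condf {g : Geo} {r : Bool} {X : ℕ} {a : Co} (h : InBox g a) :
    mem g (cond r X (full g)) a ↔ (r = true → mem g X a) := by
  have := mem_full h
  cases r <;> simp [this]

section
variable {c : Cfg} {p : Pos} {a : Co}

theorem mem_mFar (h : InBox c.g a) : mem c.g (mFar c) a ↔
    (c.rx = true ∧ (a.k1 + 1 = c.M ∨ (a.b1 + 1 = c.A ∧ a.k1 = 0))) ∨
    (c.ry = true ∧ (a.k2 + 1 = c.N ∨ (a.b2 + 1 = c.B ∧ a.k2 = 0))) := by
  rw [mFar, mem_or, mem_cond0, mem_cond0, mem_or, mem_or, mem_and, mem_and,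
    mem_sl _ h, mem_sl _ h, mem_sl _ h, mem_sl _ h, mem_sl _ h, mem_sl _ h]
  simp only [Nat.beq_eq]
  exact Iff.rfl

theorem mem_exX (h : InBox c.g a) {e : ℕ} : mem c.g (exX c e) a ↔
    a.b1 + 1 = c.A ∧ 1 ≤ a.b2 + e ∧ ¬ (a.k1 + 1 = c.A ∧ NearN (a.b2 + e) (a.k2 + 1)) ∧
    ¬ (a.b2 + e = a.r2 + 1 ∧ ¬ (a.b2 + e = a.k2 + 1 ∧ a.r1 < a.k1)) := by
  rw [exX, mem_and, mem_and, mem_and, mem_cmp h, mem_cmp h, mem_and, mem_and, mem_cmp h, mem_and,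
    mem_sl _ h, mem_sl _ h, mem_sl _ h, mem_rl _ h, mem_rl _ h, mem_rl _ h, mem_rl _ h]
  simp only [Nat.beq_eq, Nat.ble_eq, Nat.blt_eq, nearB_iff]
  constructor
  · rintro ⟨⟨⟨h1, h2⟩, h3⟩, h4⟩
    exact ⟨h1, h2, h3, h4⟩
  · rintro ⟨h1, h2, h3, h4⟩
    exact ⟨⟨⟨h1, h2⟩, h3⟩, h4⟩

theorem mem_exY (h : InBox c.g a) {e : ℕ} : mem c.g (exY c e) a ↔
    a.b2 + 1 = c.B ∧ 1 ≤ a.b1 + e ∧ ¬ (a.k2 + 1 = c.B ∧ NearN (a.b1 + e) (a.k1 + 1)) ∧
    ¬ (a.b1 + e = a.r1 + 1 ∧ ¬ (a.b1 + e = a.k1 + 1 ∧ a.r2 < a.k2)) := by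
  rw [exY, mem_and, mem_and, mem_and, mem_cmp h, mem_cmp h, mem_and, mem_and, mem_cmp h, mem_and,
    mem_sl _ h, mem_sl _ h, mem_sl _ h, mem_rl _ h, mem_rl _ h, mem_rl _ h, mem_rl _ h]
  simp only [Nat.beq_eq, Nat.ble_eq, Nat.blt_eq, nearB_iff]
  constructor
  · rintro ⟨⟨⟨h1, h2⟩, h3⟩, h4⟩
    exact ⟨h1, h2, h3, h4⟩
  · rintro ⟨h1, h2, h3, h4⟩
    exact ⟨⟨⟨h1, h2⟩, h3⟩, h4⟩

theorem Rel.exitX (h : Rel c p a) (hc : Big c) (hr : c.rx = false) {e : ℕ} (he : e ≤ 2)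
    (hm : mem c.g (exX c e) a) : ∃ t, BlackMove c.board p t ∧ ¬ c.board.On t := by
  rw [mem_exX (h.inBox hc)] at hm
  obtain ⟨m1, m2, m3, m4⟩ := hm
  obtain ⟨⟨s, hx⟩, ⟨s', hy⟩⟩ := h
  rw [hr] at hx
  obtain ⟨x1, x2, x3, x4, x5⟩ := hx.edge hc.hA m1
  obtain ⟨T, hT⟩ : ∃ T, T + 1 = p.bk.2 + e := ⟨p.bk.2 + e - 1, by have := hy.hB; omega⟩
  obtain ⟨y1, y2, y3, y4, y5⟩ := hy.exit hc.hB he m2 hT
  have hoff : ¬ c.board.On (p.bk.1 + 1, T) := by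
    rw [Cfg.on_iff]
    rintro ⟨-, -, h3, -⟩
    have := h3 hr
    dsimp only at this
    omega
  refine ⟨(p.bk.1 + 1, T), ⟨⟨fun e => ?_, ?_⟩, ?_, y1, fun _ => ⟨fun hn => ?_, Or.inr fun ha => ?_⟩⟩,
    hoff⟩
  · have := congrArg Prod.fst e
    dsimp only at this
    omega
  · rw [near_iff]
    exact ⟨by unfold NearN; dsimp only; omega, y2⟩
  · dsimp only; omega
  · rw [near_iff] at hn
    obtain ⟨n1, n2⟩ := hn
    dsimp only at n1 n2
    rw [x1] at n1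
    exact m3 ⟨x3 n1, y3 n2⟩
  · obtain ⟨⟨-, h2⟩, h3⟩ := ha
    dsimp only at h2
    rcases h2 with h2 | h2
    · omega
    · refine m4 ⟨y4 h2, fun h4 => h3 (Or.inr ⟨?_, ?_, ?_⟩)⟩
      · rw [h2, y5 h4.1]
      · exact y5 h4.1
      · have := x4 h4.2
        unfold Strict
        dsimp only
        omega

theorem Rel.exitY (h : Rel c p a) (hc : Big c) (hr : c.ry = false) {e : ℕ} (he : e ≤ 2)
    (hm : mem c.g (exY c e) a) : ∃ t, BlackMove c.board p t ∧ ¬ c.board.On t := by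
  rw [mem_exY (h.inBox hc)] at hm
  obtain ⟨m1, m2, m3, m4⟩ := hm
  obtain ⟨⟨s', hy⟩, ⟨s, hx⟩⟩ := h
  rw [hr] at hx
  obtain ⟨x1, x2, x3, x4, x5⟩ := hx.edge hc.hB m1
  obtain ⟨T, hT⟩ : ∃ T, T + 1 = p.bk.1 + e := ⟨p.bk.1 + e - 1, by have := hy.hB; omega⟩
  obtain ⟨y1, y2, y3, y4, y5⟩ := hy.exit hc.hA he m2 hT
  have hoff : ¬ c.board.On (T, p.bk.2 + 1) := by
    rw [Cfg.on_iff]
    rintro ⟨-, -, -, h3⟩
    have := h3 hr
    dsimp only at this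
    omega
  refine ⟨(T, p.bk.2 + 1), ⟨⟨fun e => ?_, ?_⟩, y1, ?_, fun _ => ⟨fun hn => ?_, Or.inr fun ha => ?_⟩⟩,
    hoff⟩
  · have := congrArg Prod.snd e
    dsimp only at this
    omega
  · rw [near_iff]
    exact ⟨y2, by unfold NearN; dsimp only; omega⟩
  · dsimp only; omega
  · rw [near_iff] at hn
    obtain ⟨n1, n2⟩ := hn
    dsimp only at n1 n2
    rw [x1] at n2
    exact m3 ⟨x3 n2, y3 n1⟩
  · obtain ⟨⟨-, h2⟩, h3⟩ := ha
    dsimp only at h2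
    rcases h2 with h2 | h2
    · refine m4 ⟨y4 h2, fun h4 => h3 (Or.inl ⟨?_, ?_, ?_⟩)⟩
      · rw [h2, y5 h4.1]
      · exact y5 h4.1
      · have := x4 h4.2
        unfold Strict
        dsimp only
        omega
    · omega

theorem Rel.edge (h : Rel c p a) (hc : Big c) (hm : mem c.g (mEdge c) a) :
    ∃ t, BlackMove c.board p t ∧ ¬ c.board.On t := by
  rw [mEdge, mem_or, mem_cond1, mem_cond1, mem_or, mem_or, mem_or, mem_or] at hm
  rcases hm with ⟨hr, (hm | hm) | hm⟩ | ⟨hr, (hm | hm) | hm⟩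
  · exact h.exitX hc hr (by norm_num) hm
  · exact h.exitX hc hr (by norm_num) hm
  · exact h.exitX hc hr (by norm_num) hm
  · exact h.exitY hc hr (by norm_num) hm
  · exact h.exitY hc hr (by norm_num) hm
  · exact h.exitY hc hr (by norm_num) hm

theorem mem_mStal (h : InBox c.g a) : mem c.g (mStal c) a ↔
    mem c.g (mLegal c.g) a ∧ ¬ mem c.g (nbrB c.g (mPT c.g)) a ∧ a.b1 + 1 < c.A ∧ a.b2 + 1 < c.B ∧
    (c.rx = true → a.k1 + 1 < c.M) ∧ (c.ry = true → a.k2 + 1 < c.N) := by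
  rw [mStal, mem_and, mem_and, mem_and, mem_and, mem_and, mem_condf h, mem_condf h, mem_cmp h,
    mem_sl _ h, mem_sl _ h, mem_sl _ h, mem_sl _ h]
  simp only [Nat.blt_eq]
  constructor
  · rintro ⟨⟨⟨⟨⟨h1, h2⟩, h3⟩, h4⟩, h5⟩, h6⟩
    exact ⟨h1, h2, h3, h4, h5, h6⟩
  · rintro ⟨h1, h2, h3, h4, h5, h6⟩
    exact ⟨⟨⟨⟨⟨h1, h2⟩, h3⟩, h4⟩, h5⟩, h6⟩

/-- no legal Black move and not in check -/
theorem Rel.stal (h : Rel c p a) (hc : Big c) (hm : mem c.g (mStal c) a) (t : Sq) :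
    ¬ BlackMove c.board p t := by
  rintro ⟨⟨h1, h2⟩, h3, h4, h5⟩
  have hb := h.inBox hc
  rw [mem_mStal hb] at hm
  obtain ⟨-, m2, m3, m4, m5, m6⟩ := hm
  obtain ⟨⟨s, hx⟩, ⟨s', hy⟩⟩ := id h
  have hs : s = 0 := by
    by_contra e
    have := (hx.hs (by omega)).2
    omega
  have hs' : s' = 0 := by
    by_contra e
    have := (hy.hs (by omega)).2
    omega
  subst hs hs'
  have e1 := hx.hB
  have e2 := hy.hB
  rw [near_iff] at h2
  unfold NearN at h2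
  have ht1 : t.1 - 1 < c.A := by omega
  have ht2 : t.2 - 1 < c.B := by omega
  have q1 : t.1 = 0 + (t.1 - 1) + 1 := by omega
  have q2 : t.2 = 0 + (t.2 - 1) + 1 := by omega
  have hR : Rel c ⟨p.wk, p.wr, t⟩ { a with b1 := t.1 - 1, b2 := t.2 - 1 } :=
    ⟨⟨0, hx.K1, hx.R1, hx.KA, hx.RA, q1, ht1, by omega, hx.hk, hx.hr⟩,
      ⟨0, hy.K1, hy.R1, hy.KA, hy.RA, q2, ht2, by omega, hy.hk, hy.hr⟩⟩
  have hbox := hR.inBox hc
  have hOn : c.board.On t := by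
    rw [Cfg.on_iff]
    exact ⟨h3, h4, fun _ => by omega, fun _ => by omega⟩
  obtain ⟨h6, h7⟩ := h5 (Or.inl hOn)
  refine m2 (mem_nbrB hb ht1 ht2 ?_ ?_ ?_ ?_)
  · rintro ⟨g1, g2⟩
    exact h1 (Prod.ext (by omega) (by omega))
  · unfold NearN; omega
  · unfold NearN; omega
  · rw [mem_mPT hbox]
    refine ⟨fun e => h6 ((hR.nkb hc).1 e), ?_⟩
    rcases h7 with h7 | h7
    · exact Or.inl ((hR.eqv hc).2 h7.symm)
    · by_cases h8 : p.wr = t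
      · exact Or.inl ((hR.eqv hc).2 h8)
      refine Or.inr fun h9 => h7 ?_
      rw [mem_mAtt hbox] at h9
      have k1 : ∀ u, u < c.A → Strict p.wr.1 p.wk.1 (u + 1) → Strict a.r1 a.k1 u :=
        fun u hu hst => hx.strict' hc.hA m3 m5 hu hst
      have k2 : ∀ u, u < c.B → Strict p.wr.2 p.wk.2 (u + 1) → Strict a.r2 a.k2 u :=
        fun u hu hst => hy.strict' hc.hB m4 m6 hu hst
      have t1 : t.1 - 1 + 1 = t.1 := by omega
      have t2 : t.2 - 1 + 1 = t.2 := by omega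
      rcases h9 with ⟨g1, g2⟩ | ⟨g1, g2⟩
      · have g3 : p.wr.1 = t.1 := (hR.eqx hc).2 g1
        refine ⟨⟨h8, Or.inl g3⟩, ?_⟩
        rintro (⟨j1, j2, j3⟩ | ⟨j1, j2, j3⟩)
        · exact g2 ⟨hx.eqKR' j1.symm, k2 _ ht2 (by rw [t2]; exact j3)⟩
        · unfold Strict at j3; omega
      · have g3 : p.wr.2 = t.2 := (hR.eqy hc).2 g1
        refine ⟨⟨h8, Or.inr g3⟩, ?_⟩
        rintro (⟨j1, j2, j3⟩ | ⟨j1, j2, j3⟩)
        · unfold Strict at j3; omega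
        · exact g2 ⟨hy.eqKR' j1.symm, k1 _ ht1 (by rw [t1]; exact j3)⟩

/-- White to move: the last move of Black was legal -/
structure Ok (p : Pos) : Prop where
  n : ¬ Near p.wk p.bk
  r : p.wr ≠ p.bk

theorem neg_T (hc : Big c) {P : Pos → Prop} {S : ℕ}
    (hP : ∀ p a, Rel c p a → Ok p → mem c.g S a → ¬ P p) (h : Rel c p a)
    (hm : mem c.g (negT c S) a) : ¬ Lost c.board P p := by
  have hb := h.inBox hc
  have key : (∃ t, BlackMove c.board p t ∧ (c.board.On t → t ≠ p.wr → ¬ P ⟨p.wk, p.wr, t⟩)) →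
      ¬ Lost c.board P p := by
    rintro ⟨t, h1, h2⟩ (h3 | ⟨h3, h4⟩)
    · exact h3.2 t h1
    · obtain ⟨h5, h6, h7⟩ := h4 t h1
      exact h2 h5 h6 h7
  have step : ∀ X H, X = S &&& mLegal c.g →
      H = stepU c.rx (axb1 c.g) (axr1 c.g) (axk1 c.g) X |||
        stepD c.rx (axb1 c.g) (axr1 c.g) (axk1 c.g) X →
      mem c.g (H ||| stepU c.ry (axb2 c.g) (axr2 c.g) (axk2 c.g) (X ||| H) |||
        stepD c.ry (axb2 c.g) (axr2 c.g) (axk2 c.g) (X ||| H)) a → ¬ Lost c.board P p := by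
    intro X H hX hH hm
    obtain ⟨t, h1, h2, h3, a', h4, h5⟩ := h.step hc hH hm
    rw [hX, mem_and] at h5
    obtain ⟨g1, g2, g3⟩ := h4.legal hc h5.2
    exact key ⟨t, ⟨h1, h2, h3, fun _ => ⟨g1, Or.inr g3⟩⟩,
      fun _ _ => hP _ a' h4 ⟨g1, g2⟩ h5.1⟩
  unfold negT at hm
  dsimp only at hm
  rw [mem_or, mem_or, mem_or] at hm
  rcases hm with ((hm | hm) | hm) | hm
  · rw [mSt, mem_or, mem_or] at hm
    rcases hm with (hm | hm) | hm
    · -- capture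
      rw [mem_mCap hb, h.nrb hc, h.eqv hc] at hm
      obtain ⟨m1, m2, m3⟩ := hm
      have hr1 : 1 ≤ p.wr.1 := by obtain ⟨⟨s, hx⟩, -⟩ := h; exact hx.R1
      have hr2 : 1 ≤ p.wr.2 := by obtain ⟨-, ⟨s, hx⟩⟩ := h; exact hx.R1
      refine key ⟨p.wr, ⟨⟨fun e => m2 e.symm, ?_⟩, hr1, hr2, fun _ => ⟨fun e => m3 (h.nkr hc e), Or.inl rfl⟩⟩,
        fun _ e => absurd rfl e⟩
      unfold Near at m1 ⊢
      omega
    · -- exit
      obtain ⟨t, h1, h2⟩ := h.edge hc hm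
      exact key ⟨t, h1, fun e => absurd e h2⟩
    · -- stalemate
      have h1 := (h.legal hc ((mem_mStal hb).1 hm).1).2.2
      rintro (h3 | ⟨⟨t, h3⟩, -⟩)
      · exact h1 h3.1
      · exact h.stal hc hm t h3
  · exact step _ _ rfl rfl (mem_or.2 (Or.inl (mem_or.2 (Or.inl hm))))
  · exact step _ _ rfl rfl (mem_or.2 (Or.inl (mem_or.2 (Or.inr hm))))
  · exact step _ _ rfl rfl (mem_or.2 (Or.inr hm))

theorem Rel.valid (h : Rel c p a) (hc : Big c) (ok : Ok p) (hkr : p.wk ≠ p.wr) :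
    mem c.g (mValid c) a := by
  have hb := h.inBox hc
  rw [mValid, mem_and, mem_or, mem_cmp hb, mem_cmp hb, mem_or, mem_and, h.nkb hc, h.eqv hc,
    mem_mFar hb, mem_mXk hb, mem_mYk hb]
  refine ⟨fun e => e.elim ok.n ok.r, ?_⟩
  by_contra hf
  push Not at hf
  obtain ⟨⟨f1, f2⟩, f3, f4⟩ := hf
  obtain ⟨⟨s, hx⟩, ⟨t, hy⟩⟩ := h
  refine hkr (Prod.ext (hx.eqKR hc.hA f3 ?_) (hy.eqKR hc.hB f4 ?_))
  · rintro ⟨g1, g2 | g2⟩
    · exact (f1 g1).1 g2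
    · exact (f1 g1).2 g2.1 g2.2
  · rintro ⟨g1, g2 | g2⟩
    · exact (f2 g1).1 g2
    · exact (f2 g1).2 g2.1 g2.2

theorem neg_W (hc : Big c) (h16 : c.M ≤ 16) (h16' : c.N ≤ 16) {T : ℕ} (h : Rel c p a) (ok : Ok p)
    (hm : mem c.g (negW c T) a) {q : Pos} (hq : WhiteMove c.board p q) :
    ∃ a', Rel c q a' ∧ mem c.g T a' := by
  have hb := h.inBox hc
  unfold negW at hm
  dsimp only at hm
  rw [mem_cmp hb, mem_or, mem_or] at hm
  push Not at hm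
  obtain ⟨⟨m1, m2⟩, m3⟩ := hm
  have key : ∀ a', Rel c q a' → Ok q → q.wk ≠ q.wr →
      (mem c.g (mValid c &&& cmp c.g T) a' → False) → mem c.g T a' := by
    intro a' h1 h2 h3 h4
    by_contra h5
    exact h4 (mem_and.2 ⟨h1.valid hc h2 h3, (mem_cmp (h1.inBox hc)).2 h5⟩)
  obtain ⟨⟨s, hx⟩, ⟨t, hy⟩⟩ := id h
  cases hq with
  | king h1 h2 h3 h4 h5 h6 =>
    obtain ⟨wk', wr', bk'⟩ := q
    dsimp only at h1 h2 h3 h4 h5 h6
    subst h1 h2
    rw [Cfg.on_iff] at h4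
    obtain ⟨g1, g2, g3, g4⟩ := h4
    have hn := near_iff.1 h3.2
    obtain ⟨k1', i1, i2⟩ := hx.moveK hc.hA g1 g3 hn.1
    obtain ⟨k2', j1, j2⟩ := hy.moveK hc.hB g2 g4 hn.2
    have hr : Rel c ⟨wk', p.wr, p.bk⟩ { a with k1 := k1', k2 := k2' } := ⟨⟨s, i1⟩, ⟨t, j1⟩⟩
    refine ⟨_, hr, key _ hr ⟨h6, ok.r⟩ h5 fun hU => m1 ?_⟩
    have b1 : InBox c.g { a with k2 := k2' } := (axk2 c.g).box a k2' hb (hr.inBox hc).hk2
    exact mem_thick hb j2 (hr.inBox hc).hk2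
      (mem_thick (x := axk1 c.g) b1 i2 (hr.inBox hc).hk1 hU)
  | rook h1 h2 h3 h4 h5 h6 h7 h8 =>
    obtain ⟨wk', wr', bk'⟩ := q
    dsimp only at h1 h2 h3 h4 h5 h6 h7 h8
    subst h1 h2
    rw [Cfg.on_iff] at h4
    obtain ⟨g1, g2, g3, g4⟩ := h4
    rcases h3.2 with e | e
    · obtain ⟨r', i1⟩ := hy.moveR g2 g4
      have hr : Rel c ⟨p.wk, wr', p.bk⟩ { a with r2 := r' } := ⟨⟨s, by dsimp only; rw [← e]; exact hx⟩, ⟨t, i1⟩⟩
      exact ⟨_, hr, key _ hr ⟨ok.n, h6⟩ (Ne.symm h5) fun hU => m3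
        (mem_line hb h16' (hr.inBox hc).hr2 hU)⟩
    · obtain ⟨r', i1⟩ := hx.moveR g1 g3
      have hr : Rel c ⟨p.wk, wr', p.bk⟩ { a with r1 := r' } := ⟨⟨s, i1⟩, ⟨t, by dsimp only; rw [← e]; exact hy⟩⟩
      exact ⟨_, hr, key _ hr ⟨ok.n, h6⟩ (Ne.symm h5) fun hU => m2
        (mem_line hb h16 (hr.inBox hc).hr1 hU)⟩

theorem neg_step (hc : Big c) (h16 : c.M ≤ 16) (h16' : c.N ≤ 16) {P : Pos → Prop} {S : ℕ}
    (hP : ∀ p a, Rel c p a → Ok p → mem c.g S a → ¬ P p) (h : Rel c p a) (ok : Ok p)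
    (hm : mem c.g (negS c S) a) : ¬ ∃ q, WhiteMove c.board p q ∧ Lost c.board P q := by
  rintro ⟨q, h1, h2⟩
  obtain ⟨a', h3, h4⟩ := neg_W hc h16 h16' h ok hm h1
  exact neg_T hc hP h3 h4 h2

theorem neg_mateIn (hc : Big c) (h16 : c.M ≤ 16) (h16' : c.N ≤ 16) (S : ℕ) : ∀ (N : ℕ) (p : Pos)
    (a : Co), Rel c p a → Ok p → mem c.g (negI c N S) a → ¬ MateIn c.board N p
  | 0, _, _, _, _, _ => fun h => h
  | N + 1, _, _, h, ok, hm => neg_step hc h16 h16' (neg_mateIn hc h16 h16' S N) h ok hm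

theorem neg_wins (hc : Big c) (h16 : c.M ≤ 16) (h16' : c.N ≤ 16) {S : ℕ} (hS : negS c S = S)
    (h : Rel c p a) (ok : Ok p) (hm : mem c.g S a) : ¬ Wins c.board p := by
  intro hw
  refine Wins.least (P := fun p => ¬ ∃ a, Rel c p a ∧ Ok p ∧ mem c.g S a) ?_ hw ⟨a, h, ok, hm⟩
  rintro p hq ⟨a, h, ok, hm⟩
  rw [← hS] at hm
  exact neg_step hc h16 h16' (fun p a h1 h2 h3 h4 => h4 ⟨a, h1, h2, h3⟩) h ok hm hq

end

theorem ok_start : Ok start := ⟨by unfold Near start; decide, by unfold start; decide⟩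

theorem rel_start {c : Cfg} (hc : Big c) : Rel c start startCo := by
  have h1 := hc.hA
  have h2 := hc.hB
  have e : ∀ A roll, 3 ≤ A → min (1 - (0 + 1)) (Wd A roll - 1) = 0 ∧
      min (2 - (0 + 1)) (Wd A roll - 1) = 1 := by
    intro A roll h
    cases roll <;> simp only [Wd, cond_true, cond_false] <;> omega
  have e1 := e c.A c.rx h1
  have e2 := e c.B c.ry h2
  unfold start startCo
  exact ⟨⟨0, by norm_num, by norm_num, fun _ => by dsimp only; omega, fun _ => by dsimp only; omega,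
    rfl, by dsimp only; omega, fun h => absurd h (lt_irrefl _), e1.1.symm, e1.2.symm⟩,
    ⟨0, by norm_num, by norm_num, fun _ => by dsimp only; omega, fun _ => by dsimp only; omega,
    rfl, by dsimp only; omega, fun h => absurd h (lt_irrefl _), e2.1.symm, e2.2.symm⟩⟩

/-- Black survives for `n` moves from the starting position -/
theorem not_mateIn_of_run (c : Cfg) (hc : Big c) (h16 : c.M ≤ 16) (h16' : c.N ≤ 16) (n : ℕ)
    (h : Nat.testBit (negI c n (full c.g)) (ix c.g startCo) = true) :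
    ¬ MateIn c.board n start :=
  neg_mateIn hc h16 h16' _ n _ _ (rel_start hc) ok_start h

/-- Black survives for ever from the starting position -/
theorem not_wins_of_run (c : Cfg) (hc : Big c) (h16 : c.M ≤ 16) (h16' : c.N ≤ 16) (n : ℕ)
    (h : Nat.testBit (negI c n (full c.g)) (ix c.g startCo) = true)
    (h' : Nat.beq (negS c (negI c n (full c.g))) (negI c n (full c.g)) = true) :
    ¬ Wins c.board start :=
  neg_wins hc h16 h16' (Nat.eq_of_beq_eq_true h') (rel_start hc) ok_start h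

end K1H58.KR
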