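import Pool.Agent.K1H58.KR.Geo

/-!
# The relaxed game in which Black tries to survive: bit tables
-/

set_option autoImplicit false

namespace K1H58.KR

/-- configuration: BK plane `A × B`; `rx`, `ry`: is the coordinate rolling (no edge on that side) -/
structure Cfg where
  A : ℕ
  B : ℕ
  rx : Bool
  ry : Bool

def Cfg.M (c : Cfg) : ℕ := cond c.rx (c.A + 2) c.A

def Cfg.N (c : Cfg) : ℕ := cond c.ry (c.B + 2) c.B

def Cfg.g (c : Cfg) : Geo := ⟨c.A, c.B, c.M, c.N⟩

def nearB (u v : ℕ) : Bool := Nat.ble u (v + 1) && Nat.ble v (u + 1)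

/-- masks of pairs of pieces -/
def mNKB (g : Geo) : ℕ := rl (pbk1 g) nearB &&& rl (pbk2 g) nearB
def mNRB (g : Geo) : ℕ := rl (pbr1 g) nearB &&& rl (pbr2 g) nearB
def mNKR (g : Geo) : ℕ := rl (prk1 g) nearB &&& rl (prk2 g) nearB
def mX (g : Geo) : ℕ := rl (pbr1 g) Nat.beq
def mY (g : Geo) : ℕ := rl (pbr2 g) Nat.beq
def mXk (g : Geo) : ℕ := rl (prk1 g) Nat.beq
def mYk (g : Geo) : ℕ := rl (prk2 g) Nat.beq

/-- the White king is strictly between rook and Black king, first coordinate -/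
def mB1 (g : Geo) : ℕ :=
  (rl (prk1 g) (fun r k => Nat.blt r k) &&& rl (pbk1 g) (fun b k => Nat.blt k b)) |||
  (rl (prk1 g) (fun r k => Nat.blt k r) &&& rl (pbk1 g) (fun b k => Nat.blt b k))

def mB2 (g : Geo) : ℕ :=
  (rl (prk2 g) (fun r k => Nat.blt r k) &&& rl (pbk2 g) (fun b k => Nat.blt k b)) |||
  (rl (prk2 g) (fun r k => Nat.blt k r) &&& rl (pbk2 g) (fun b k => Nat.blt b k))

def mEq (g : Geo) : ℕ := mX g &&& mY g

/-- attacked (or equal squares) -/
def mAtt (g : Geo) : ℕ :=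
  (mX g &&& cmp g (mXk g &&& mB2 g)) ||| (mY g &&& cmp g (mYk g &&& mB1 g))

def mFar (c : Cfg) : ℕ :=
  cond c.rx (sl (axk1 c.g) (fun k => Nat.beq (k + 1) c.M) |||
    (sl (axb1 c.g) (fun b => Nat.beq (b + 1) c.A) &&& sl (axk1 c.g) (fun k => Nat.beq k 0))) 0 |||
  cond c.ry (sl (axk2 c.g) (fun k => Nat.beq (k + 1) c.N) |||
    (sl (axb2 c.g) (fun b => Nat.beq (b + 1) c.B) &&& sl (axk2 c.g) (fun k => Nat.beq k 0))) 0

def mValid (c : Cfg) : ℕ :=
  cmp c.g (mNKB c.g ||| mEq c.g) &&& (mFar c ||| cmp c.g (mXk c.g &&& mYk c.g))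

def mLegal (g : Geo) : ℕ := cmp g (mNKB g ||| mEq g ||| mAtt g)

/-- squares to which the Black king may possibly go (not near the White king, capture or not
attacked) -/
def mPT (g : Geo) : ℕ := cmp g (mNKB g) &&& (mEq g ||| cmp g (mAtt g))

def mCap (g : Geo) : ℕ := mNRB g &&& cmp g (mEq g ||| mNKR g)

/-- points from which the Black king has a king step into `X` inside the plane -/
def nbrB (g : Geo) (X : ℕ) : ℕ :=
  (fun H => (fun V => H ||| up (axb2 g) V ||| dn (axb2 g) V) (X ||| H))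
    (up (axb1 g) X ||| dn (axb1 g) X)

def mStal (c : Cfg) : ℕ :=
  mLegal c.g &&& cmp c.g (nbrB c.g (mPT c.g)) &&&
    sl (axb1 c.g) (fun b => Nat.blt (b + 1) c.A) &&& sl (axb2 c.g) (fun b => Nat.blt (b + 1) c.B) &&&
    cond c.rx (sl (axk1 c.g) (fun k => Nat.blt (k + 1) c.M)) (full c.g) &&&
    cond c.ry (sl (axk2 c.g) (fun k => Nat.blt (k + 1) c.N)) (full c.g)

/-- the Black king may leave the board over the east edge, `e - 1` ranks up -/
def exX (c : Cfg) (e : ℕ) : ℕ :=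
  sl (axb1 c.g) (fun b => Nat.beq (b + 1) c.A) &&& sl (axb2 c.g) (fun b => Nat.ble 1 (b + e)) &&&
  cmp c.g (sl (axk1 c.g) (fun k => Nat.beq (k + 1) c.A) &&&
    rl (pbk2 c.g) (fun b k => nearB (b + e) (k + 1))) &&&
  cmp c.g (rl (pbr2 c.g) (fun b r => Nat.beq (b + e) (r + 1)) &&&
    cmp c.g (rl (pbk2 c.g) (fun b k => Nat.beq (b + e) (k + 1)) &&&
      rl (prk1 c.g) (fun r k => Nat.blt r k)))

/-- the Black king may leave the board over the north edge, `e - 1` files up -/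
def exY (c : Cfg) (e : ℕ) : ℕ :=
  sl (axb2 c.g) (fun b => Nat.beq (b + 1) c.B) &&& sl (axb1 c.g) (fun b => Nat.ble 1 (b + e)) &&&
  cmp c.g (sl (axk2 c.g) (fun k => Nat.beq (k + 1) c.B) &&&
    rl (pbk1 c.g) (fun b k => nearB (b + e) (k + 1))) &&&
  cmp c.g (rl (pbr1 c.g) (fun b r => Nat.beq (b + e) (r + 1)) &&&
    cmp c.g (rl (pbk1 c.g) (fun b k => Nat.beq (b + e) (k + 1)) &&&
      rl (prk2 c.g) (fun r k => Nat.blt r k)))

def mEdge (c : Cfg) : ℕ :=
  cond c.rx 0 (exX c 0 ||| exX c 1 ||| exX c 2) |||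
  cond c.ry 0 (exY c 0 ||| exY c 1 ||| exY c 2)

def mSt (c : Cfg) : ℕ := mCap c.g ||| mEdge c ||| mStal c

section
variable {g : Geo}

/-- all new coordinates after the frame moves up -/
def rollU (x : Axis g) (X : ℕ) : ℕ :=
  (dn x X &&& (sl x (fun c => Nat.blt (c + 1) x.n) ||| X)) ||| (sl x (fun c => Nat.beq c 0) &&& X)

/-- all new coordinates after the frame moves down -/
def rollD (x : Axis g) (X : ℕ) : ℕ :=
  (up x X &&& (sl x (fun c => Nat.ble 1 c) ||| X)) |||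
    (sl x (fun c => Nat.beq (c + 1) x.n) &&& X)

/-- Black king one step up along `x`; `y`, `z` are the axes of the White pieces -/
def stepU (roll : Bool) (x y z : Axis g) (X : ℕ) : ℕ :=
  up x X ||| cond roll (sl x (fun c => Nat.beq (c + 1) x.n) &&& rollU y (rollU z X)) 0

def stepD (roll : Bool) (x y z : Axis g) (X : ℕ) : ℕ :=
  cond roll (dn x X &&& (sl x (fun c => Nat.blt (c + 1) x.n) ||| rollD y (rollD z X))) (dn x X)

/-- closure under one step (or none) along an axis -/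
def thick (x : Axis g) (X : ℕ) : ℕ := X ||| up x X ||| dn x X

def sprU (x : Axis g) (t X : ℕ) : ℕ := X ||| upt x t X

def sprD (x : Axis g) (t X : ℕ) : ℕ := X ||| dnt x t X

/-- closure under arbitrary movement along an axis of length at most 16 -/
def line (x : Axis g) (X : ℕ) : ℕ :=
  sprD x 8 (sprD x 4 (sprD x 2 (sprD x 1 (sprU x 8 (sprU x 4 (sprU x 2 (sprU x 1 X)))))))

end

/-- Black to move, static or with a good move -/
def negT (c : Cfg) (S : ℕ) : ℕ :=
  (fun X => (fun H => (fun V => mSt c ||| H ||| stepU c.ry (axb2 c.g) (axr2 c.g) (axk2 c.g) V |||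
      stepD c.ry (axb2 c.g) (axr2 c.g) (axk2 c.g) V) (X ||| H))
    (stepU c.rx (axb1 c.g) (axr1 c.g) (axk1 c.g) X |||
      stepD c.rx (axb1 c.g) (axr1 c.g) (axk1 c.g) X)) (S &&& mLegal c.g)

/-- points with White to move from which every White move leads to `T` -/
def negW (c : Cfg) (T : ℕ) : ℕ :=
  (fun U => cmp c.g (thick (axk2 c.g) (thick (axk1 c.g) U) ||| line (axr1 c.g) U |||
    line (axr2 c.g) U)) (mValid c &&& cmp c.g T)

def negS (c : Cfg) (S : ℕ) : ℕ := negW c (negT c S)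

def negI (c : Cfg) : ℕ → ℕ → ℕ
  | 0, S => S
  | n + 1, S => negS c (negI c n S)

def startCo : Co := ⟨2, 2, 1, 1, 0, 0⟩

end K1H58.KR
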