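import Pool.Agent.K1H58.KR.PosDef
import Pool.Agent.K1H58.KR.Neg3

/-!
# Soundness of the tables of the exact game: the table positions are White wins
-/

set_option autoImplicit false

namespace K1H58.KR

/-- the position with given table coordinates -/
def posOf (a : Co) : Pos := ⟨(a.k1 + 1, a.k2 + 1), (a.r1 + 1, a.r2 + 1), (a.b1 + 1, a.b2 + 1)⟩

/-- all pieces move on an `m × n` board -/
def sqg (m n : ℕ) : Geo := ⟨m, n, m, n⟩

/-! ### Steps and rays -/

section steps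
variable {g : Geo}

theorem of_mem_step {x : Axis g} {X : ℕ} {a : Co} (ha : InBox g a)
    (h : mem g (up x X ||| dn x X) a) :
    ∃ u, u < x.n ∧ NearN (x.get a) u ∧ u ≠ x.get a ∧ mem g X (x.set a u) := by
  have hlt := x.lt a ha
  rw [mem_or, mem_up x ha, mem_dn x ha] at h
  rcases h with ⟨h1, h2⟩ | ⟨h1, h2⟩
  · exact ⟨_, h1, by unfold NearN; omega, by omega, h2⟩
  · exact ⟨_, by omega, by unfold NearN; omega, by omega, h2⟩

theorem of_mem_nbr {x y : Axis g} (hxy : ∀ a v, x.get (y.set a v) = x.get a) {X : ℕ} {a : Co}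
    (ha : InBox g a) (h : mem g (nbr x y X) a) :
    ∃ u v, u < x.n ∧ v < y.n ∧ NearN (x.get a) u ∧ NearN (y.get a) v ∧
      ¬ (u = x.get a ∧ v = y.get a) ∧ mem g X (x.set (y.set a v) u) := by
  unfold nbr at h
  dsimp only at h
  have hlx := x.lt a ha
  have hly := y.lt a ha
  have key : ∀ v, v < y.n → NearN (y.get a) v → v ≠ y.get a →
      mem g (X ||| (up x X ||| dn x X)) (y.set a v) →
      ∃ u v, u < x.n ∧ v < y.n ∧ NearN (x.get a) u ∧ NearN (y.get a) v ∧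
      ¬ (u = x.get a ∧ v = y.get a) ∧ mem g X (x.set (y.set a v) u) := by
    intro v h1 h2 h3 h4
    rcases mem_or.1 h4 with h4 | h4
    · refine ⟨x.get a, v, hlx, h1, by unfold NearN; omega, h2, fun e => h3 e.2, ?_⟩
      rw [← hxy a v, x.set_get]
      exact h4
    · obtain ⟨u, h5, h6, h7, h8⟩ := of_mem_step (y.box a v ha h1) h4
      rw [hxy] at h6 h7
      exact ⟨u, v, h5, h1, h6, h2, fun e => h3 e.2, h8⟩
  rw [mem_or, mem_or, mem_up y ha, mem_dn y ha] at h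
  rcases h with (h | ⟨h1, h2⟩) | ⟨h1, h2⟩
  · obtain ⟨u, h5, h6, h7, h8⟩ := of_mem_step ha h
    refine ⟨u, y.get a, h5, hly, h6, by unfold NearN; omega, fun e => h7 e.1, ?_⟩
    rw [y.set_get]
    exact h8
  · exact key _ h1 (by unfold NearN; omega) (by omega) h2
  · exact key _ (by omega) (by unfold NearN; omega) (by omega) h2

theorem of_qU {x : Axis g} {P Q t : ℕ}
    (hQ : ∀ a, InBox g a → mem g Q a →
      ∀ i < t, x.get a + i < x.n ∧ mem g P (x.set a (x.get a + i)))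
    (a : Co) (ha : InBox g a) (h : mem g (qU x t Q) a) (i : ℕ) (hi : i < 2 * t) :
    x.get a + i < x.n ∧ mem g P (x.set a (x.get a + i)) := by
  rw [qU, mem_and, mem_upt x ha] at h
  obtain ⟨h1, h2, h3⟩ := h
  rcases Nat.lt_or_ge i t with h4 | h4
  · exact hQ a ha h1 i h4
  · have h5 := hQ _ (x.box _ _ ha h2) h3 (i - t) (by omega)
    rw [x.get_set, x.set_set] at h5
    have e : x.get a + t + (i - t) = x.get a + i := by omega
    rwa [e] at h5

theorem of_gU {x : Axis g} {P L Q G t : ℕ}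
    (hQ : ∀ a, InBox g a → mem g Q a →
      ∀ i < t, x.get a + i < x.n ∧ mem g P (x.set a (x.get a + i)))
    (hG : ∀ a, InBox g a → mem g G a → ∃ d, x.get a + d < x.n ∧
      mem g L (x.set a (x.get a + d)) ∧ ∀ i < d, mem g P (x.set a (x.get a + i)))
    (a : Co) (ha : InBox g a) (h : mem g (gU x t Q G) a) : ∃ d, x.get a + d < x.n ∧
      mem g L (x.set a (x.get a + d)) ∧ ∀ i < d, mem g P (x.set a (x.get a + i)) := by
  rw [gU, mem_or, mem_and, mem_upt x ha] at h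
  rcases h with h | ⟨h1, h2, h3⟩
  · exact hG a ha h
  · obtain ⟨d, h4, h5, h6⟩ := hG _ (x.box _ _ ha h2) h3
    rw [x.get_set] at h4
    rw [x.get_set, x.set_set] at h5
    refine ⟨t + d, by omega, ?_, fun i hi => ?_⟩
    · have e : x.get a + (t + d) = x.get a + t + d := by omega
      rw [e]; exact h5
    · rcases Nat.lt_or_ge i t with h7 | h7
      · exact (hQ a ha h1 i h7).2
      · have h8 := h6 (i - t) (by omega)
        rw [x.get_set, x.set_set] at h8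
        have e : x.get a + t + (i - t) = x.get a + i := by omega
        rwa [e] at h8

theorem of_qD {x : Axis g} {P Q t : ℕ}
    (hQ : ∀ a, InBox g a → mem g Q a →
      ∀ i < t, i ≤ x.get a ∧ mem g P (x.set a (x.get a - i)))
    (a : Co) (ha : InBox g a) (h : mem g (qD x t Q) a) (i : ℕ) (hi : i < 2 * t) :
    i ≤ x.get a ∧ mem g P (x.set a (x.get a - i)) := by
  have hlt := x.lt a ha
  rw [qD, mem_and, mem_dnt x ha] at h
  obtain ⟨h1, h2, h3⟩ := h
  rcases Nat.lt_or_ge i t with h4 | h4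
  · exact hQ a ha h1 i h4
  · have h5 := hQ _ (x.box _ _ ha (by omega)) h3 (i - t) (by omega)
    rw [x.get_set, x.set_set] at h5
    have e : x.get a - t - (i - t) = x.get a - i := by omega
    rw [e] at h5
    exact ⟨by omega, h5.2⟩

theorem of_gD {x : Axis g} {P L Q G t : ℕ}
    (hQ : ∀ a, InBox g a → mem g Q a →
      ∀ i < t, i ≤ x.get a ∧ mem g P (x.set a (x.get a - i)))
    (hG : ∀ a, InBox g a → mem g G a → ∃ d, d ≤ x.get a ∧
      mem g L (x.set a (x.get a - d)) ∧ ∀ i < d, mem g P (x.set a (x.get a - i)))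
    (a : Co) (ha : InBox g a) (h : mem g (gD x t Q G) a) : ∃ d, d ≤ x.get a ∧
      mem g L (x.set a (x.get a - d)) ∧ ∀ i < d, mem g P (x.set a (x.get a - i)) := by
  have hlt := x.lt a ha
  rw [gD, mem_or, mem_and, mem_dnt x ha] at h
  rcases h with h | ⟨h1, h2, h3⟩
  · exact hG a ha h
  · obtain ⟨d, h4, h5, h6⟩ := hG _ (x.box _ _ ha (by omega)) h3
    rw [x.get_set] at h4
    rw [x.get_set, x.set_set] at h5
    refine ⟨t + d, by omega, ?_, fun i hi => ?_⟩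
    · have e : x.get a - (t + d) = x.get a - t - d := by omega
      rw [e]; exact h5
    · rcases Nat.lt_or_ge i t with h7 | h7
      · exact (hQ a ha h1 i h7).2
      · have h8 := h6 (i - t) (by omega)
        rw [x.get_set, x.set_set] at h8
        have e : x.get a - t - (i - t) = x.get a - i := by omega
        rwa [e] at h8

theorem of_mem_rayU {x : Axis g} {P L : ℕ} {a : Co} (ha : InBox g a)
    (h : mem g (rayU x P L) a) : ∃ d, 1 ≤ d ∧ x.get a + d < x.n ∧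
      mem g L (x.set a (x.get a + d)) ∧
      ∀ i, 1 ≤ i → i < d → mem g P (x.set a (x.get a + i)) := by
  have q0 : ∀ a, InBox g a → mem g P a →
      ∀ i < 1, x.get a + i < x.n ∧ mem g P (x.set a (x.get a + i)) := by
    intro a ha h i hi
    have e : x.get a + i = x.get a := by omega
    rw [e, x.set_get]
    exact ⟨x.lt a ha, h⟩
  have g0 : ∀ a, InBox g a → mem g L a → ∃ d, x.get a + d < x.n ∧
      mem g L (x.set a (x.get a + d)) ∧ ∀ i < d, mem g P (x.set a (x.get a + i)) := by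
    intro a ha h
    refine ⟨0, x.lt a ha, ?_, fun i hi => absurd hi (Nat.not_lt_zero _)⟩
    rw [Nat.add_zero, x.set_get]
    exact h
  have q1 := of_qU q0
  have q2 := of_qU q1
  have q3 := of_qU q2
  have g4 := of_gU q3 (of_gU q2 (of_gU q1 (of_gU q0 g0)))
  rw [rayU, mem_upt x ha] at h
  obtain ⟨h1, h2⟩ := h
  obtain ⟨d, h3, h4, h5⟩ := g4 _ (x.box _ _ ha h1) h2
  rw [x.get_set] at h3
  rw [x.get_set, x.set_set] at h4
  refine ⟨1 + d, by omega, by omega, ?_, fun i hi1 hi2 => ?_⟩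
  · have e : x.get a + (1 + d) = x.get a + 1 + d := by omega
    rw [e]; exact h4
  · have h8 := h5 (i - 1) (by omega)
    rw [x.get_set, x.set_set] at h8
    have e : x.get a + 1 + (i - 1) = x.get a + i := by omega
    rwa [e] at h8

theorem of_mem_rayD {x : Axis g} {P L : ℕ} {a : Co} (ha : InBox g a)
    (h : mem g (rayD x P L) a) : ∃ d, 1 ≤ d ∧ d ≤ x.get a ∧
      mem g L (x.set a (x.get a - d)) ∧
      ∀ i, 1 ≤ i → i < d → mem g P (x.set a (x.get a - i)) := by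
  have hlt := x.lt a ha
  have q0 : ∀ a, InBox g a → mem g P a →
      ∀ i < 1, i ≤ x.get a ∧ mem g P (x.set a (x.get a - i)) := by
    intro a ha h i hi
    have e : x.get a - i = x.get a := by omega
    rw [e, x.set_get]
    exact ⟨by omega, h⟩
  have g0 : ∀ a, InBox g a → mem g L a → ∃ d, d ≤ x.get a ∧
      mem g L (x.set a (x.get a - d)) ∧ ∀ i < d, mem g P (x.set a (x.get a - i)) := by
    intro a ha h
    refine ⟨0, Nat.zero_le _, ?_, fun i hi => absurd hi (Nat.not_lt_zero _)⟩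
    rw [Nat.sub_zero, x.set_get]
    exact h
  have q1 := of_qD q0
  have q2 := of_qD q1
  have q3 := of_qD q2
  have g4 := of_gD q3 (of_gD q2 (of_gD q1 (of_gD q0 g0)))
  rw [rayD, mem_dnt x ha] at h
  obtain ⟨h1, h2⟩ := h
  obtain ⟨d, h3, h4, h5⟩ := g4 _ (x.box _ _ ha (by omega)) h2
  rw [x.get_set] at h3
  rw [x.get_set, x.set_set] at h4
  refine ⟨1 + d, by omega, by omega, ?_, fun i hi1 hi2 => ?_⟩
  · have e : x.get a - (1 + d) = x.get a - 1 - d := by omega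
    rw [e]; exact h4
  · have h8 := h5 (i - 1) (by omega)
    rw [x.get_set, x.set_set] at h8
    have e : x.get a - 1 - (i - 1) = x.get a - i := by omega
    rwa [e] at h8

end steps

/-! ### The game -/

section game
variable {m n : ℕ} {a : Co}

theorem posOf_near {g : Geo} (h : InBox g a) :
    mem g (mNKB g) a ↔ Near (posOf a).wk (posOf a).bk := by
  rw [mem_mNKB h]
  simp only [posOf, Near, NearN]
  omega

theorem posOf_att {g : Geo} (h : InBox g a) (hne : ¬ mem g (mEq g) a) :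
    mem g (mAtt g) a ↔ Attacks (posOf a).wk (posOf a).wr (posOf a).bk := by
  rw [mem_mEq h] at hne
  rw [mem_mAtt h]
  simp only [posOf, Attacks, Aligned, Between, Strict, Ne, Prod.mk.injEq]
  omega

theorem board_on {s : Sq} : Board.On ⟨(m : ℕ∞), (n : ℕ∞), false⟩ s ↔
    1 ≤ s.1 ∧ 1 ≤ s.2 ∧ s.1 ≤ m ∧ s.2 ≤ n := by
  simp [Board.On]

theorem nbr_b (g : Geo) (X : ℕ) : nbr (axb1 g) (axb2 g) X = nbrB g X := rfl

/-- the Black moves from an inner square -/
theorem posOf_black (h : InBox (sqg m n) a) (h1 : a.b1 + 1 < m) (h2 : a.b2 + 1 < n)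
    (h3 : ¬ mem (sqg m n) (mEq (sqg m n)) a) {t : Sq}
    (ht : BlackMove ⟨(m : ℕ∞), (n : ℕ∞), false⟩ (posOf a) t) :
    Board.On ⟨(m : ℕ∞), (n : ℕ∞), false⟩ t ∧ (mem (sqg m n) (mCap (sqg m n)) a ∨ t ≠ (posOf a).wr ∧
      ∃ u v, u < m ∧ v < n ∧ ¬ (u = a.b1 ∧ v = a.b2) ∧ NearN a.b1 u ∧ NearN a.b2 v ∧
        t = (u + 1, v + 1) ∧
        mem (sqg m n) (mLegal (sqg m n)) { a with b1 := u, b2 := v }) := by
  obtain ⟨⟨g1, g2⟩, g3, g4, g5⟩ := ht
  obtain ⟨t1, t2⟩ := t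
  dsimp only at g3 g4
  obtain ⟨u, rfl⟩ : ∃ u, t1 = u + 1 := ⟨t1 - 1, by omega⟩
  obtain ⟨v, rfl⟩ : ∃ v, t2 = v + 1 := ⟨t2 - 1, by omega⟩
  simp only [posOf, Near, Ne, Prod.mk.injEq] at g1 g2
  have hu : u < m := by omega
  have hv : v < n := by omega
  have hOn : Board.On ⟨(m : ℕ∞), (n : ℕ∞), false⟩ (u + 1, v + 1) := by
    rw [board_on]; dsimp only; omega
  refine ⟨hOn, ?_⟩
  obtain ⟨g6, g7⟩ := g5 (Or.inl hOn)
  by_cases hw : (u + 1, v + 1) = (posOf a).wr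
  · refine Or.inl ?_
    rw [mem_mCap h, mem_mNRB h, mem_mNKR h]
    refine ⟨?_, h3, ?_⟩
    · simp only [posOf, Prod.mk.injEq] at hw
      unfold NearN; omega
    · intro e
      apply g6
      simp only [posOf, Prod.mk.injEq] at hw
      simp only [posOf, Near]
      unfold NearN at e
      omega
  · refine Or.inr ⟨hw, u, v, hu, hv, by omega, by unfold NearN; omega, by unfold NearN; omega,
      rfl, ?_⟩
    have hb : InBox (sqg m n) { a with b1 := u, b2 := v } :=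
      ⟨hu, hv, h.hr1, h.hr2, h.hk1, h.hk2⟩
    have hne : ¬ mem (sqg m n) (mEq (sqg m n)) { a with b1 := u, b2 := v } := by
      rw [mem_mEq hb]
      rintro ⟨e1, e2⟩
      apply hw
      simp only [posOf, Prod.mk.injEq]
      dsimp only at e1 e2
      omega
    rw [mem_mLegal hb, posOf_near hb, posOf_att hb hne]
    exact ⟨g6, hne, fun e => (g7.resolve_left hw) e⟩

/-- a legal table step is a Black move -/
theorem posOf_black' (h : InBox (sqg m n) a) {u v : ℕ} (hu : u < m) (hv : v < n)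
    (h1 : ¬ (u = a.b1 ∧ v = a.b2)) (h2 : NearN a.b1 u) (h3 : NearN a.b2 v)
    (hm : mem (sqg m n) (mLegal (sqg m n)) { a with b1 := u, b2 := v }) :
    BlackMove ⟨(m : ℕ∞), (n : ℕ∞), false⟩ (posOf a) (u + 1, v + 1) := by
  have hb : InBox (sqg m n) { a with b1 := u, b2 := v } :=
    ⟨hu, hv, h.hr1, h.hr2, h.hk1, h.hk2⟩
  rw [mem_mLegal hb] at hm
  obtain ⟨m1, m2, m3⟩ := hm
  rw [posOf_near hb] at m1
  rw [posOf_att hb m2] at m3
  unfold NearN at h2 h3
  refine ⟨⟨?_, ?_⟩, by dsimp only; omega, by dsimp only; omega, fun _ => ⟨m1, Or.inr m3⟩⟩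
  · simp only [posOf, Ne, Prod.mk.injEq]; omega
  · simp only [posOf, Near]; omega

theorem mem_mP {g : Geo} (h : InBox g a) : mem g (mP g) a ↔
    ¬ (a.r1 = a.k1 ∧ a.r2 = a.k2) ∧ ¬ (a.b1 = a.r1 ∧ a.b2 = a.r2) := by
  rw [mP, mem_cmp h, mem_or, mem_and, mem_mXk h, mem_mYk h, mem_mEq h]
  tauto

theorem mem_posL (h : InBox (sqg m n) a) {W : ℕ} :
    mem (sqg m n) (posL (sqg m n) W) a ↔
    ¬ mem (sqg m n) (mNKB (sqg m n)) a ∧ ¬ mem (sqg m n) (mCap (sqg m n)) a ∧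
    mem (sqg m n) (mP (sqg m n)) a ∧ a.b1 + 1 < m ∧ a.b2 + 1 < n ∧
    ¬ mem (sqg m n) (nbrB (sqg m n) (mLegal (sqg m n) &&& cmp (sqg m n) W)) a ∧
    (mem (sqg m n) (mAtt (sqg m n)) a ∨
      mem (sqg m n) (nbr (axb1 (sqg m n)) (axb2 (sqg m n)) (mLegal (sqg m n))) a) := by
  rw [posL, mem_and, mem_and, mem_and, mem_and, mem_and, mem_cmp h, mem_cmp h, mem_or, mem_or,
    mem_sl _ h, mem_sl _ h, nbr_b]
  simp only [Nat.blt_eq]
  constructor
  · rintro ⟨⟨⟨⟨⟨h1, h2⟩, h3⟩, h4⟩, h5⟩, h6⟩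
    exact ⟨fun e => h1 (Or.inl e), fun e => h1 (Or.inr e), h2, h3, h4, h5, h6⟩
  · rintro ⟨h0, h1, h2, h3, h4, h5, h6⟩
    exact ⟨⟨⟨⟨⟨fun e => e.elim h0 h1, h2⟩, h3⟩, h4⟩, h5⟩, h6⟩

theorem pos_L {P : Pos → Prop} {W : ℕ}
    (hW : ∀ a, InBox (sqg m n) a → mem (sqg m n) W a → P (posOf a)) (h : InBox (sqg m n) a)
    (hm : mem (sqg m n) (posL (sqg m n) W) a) :
    Lost ⟨(m : ℕ∞), (n : ℕ∞), false⟩ P (posOf a) := by
  rw [mem_posL h] at hm
  obtain ⟨m1, m2, m3, m4, m5, m6, m7⟩ := hm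
  rw [mem_mP h] at m3
  have hne : ¬ mem (sqg m n) (mEq (sqg m n)) a := by rw [mem_mEq h]; exact m3.2
  have hall : ∀ t, BlackMove ⟨(m : ℕ∞), (n : ℕ∞), false⟩ (posOf a) t →
      Board.On ⟨(m : ℕ∞), (n : ℕ∞), false⟩ t ∧ t ≠ (posOf a).wr ∧ P ⟨(posOf a).wk, (posOf a).wr, t⟩ := by
    intro t ht
    obtain ⟨h1, h2⟩ := posOf_black h m4 m5 hne ht
    rcases h2 with h2 | ⟨h2, u, v, h3, h4, h5, h6, h7, h8, h9⟩
    · exact absurd h2 m2
    · refine ⟨h1, h2, ?_⟩
      subst h8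
      have hb : InBox (sqg m n) { a with b1 := u, b2 := v } :=
        ⟨h3, h4, h.hr1, h.hr2, h.hk1, h.hk2⟩
      have hWm : mem (sqg m n) W { a with b1 := u, b2 := v } := by
        by_contra hc
        exact m6 (mem_nbrB h h3 h4 h5 h6 h7 (mem_and.2 ⟨h9, (mem_cmp hb).2 hc⟩))
      exact hW _ hb hWm
  by_cases hex : ∃ t, BlackMove ⟨(m : ℕ∞), (n : ℕ∞), false⟩ (posOf a) t
  · exact Or.inr ⟨hex, hall⟩
  · refine Or.inl ⟨?_, fun t ht => hex ⟨t, ht⟩⟩
    rcases m7 with m7 | m7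
    · exact (posOf_att h hne).1 m7
    · exfalso
      obtain ⟨u, v, h1, h2, h3, h4, h5, h6⟩ := of_mem_nbr (fun _ _ => rfl) h m7
      exact hex ⟨_, posOf_black' h h1 h2 h5 h3 h4 h6⟩

theorem pos_S {P : Pos → Prop} {W : ℕ}
    (hW : ∀ a, InBox (sqg m n) a → mem (sqg m n) W a → P (posOf a)) (h : InBox (sqg m n) a)
    (hm : mem (sqg m n) (posS (sqg m n) W) a) :
    ∃ q, WhiteMove ⟨(m : ℕ∞), (n : ℕ∞), false⟩ (posOf a) q ∧ Lost ⟨(m : ℕ∞), (n : ℕ∞), false⟩ P q := by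
  have key : ∀ a', InBox (sqg m n) a' → mem (sqg m n) (posL (sqg m n) W) a' →
      ¬ Near (posOf a').wk (posOf a').bk ∧ (¬ (a'.r1 = a'.k1 ∧ a'.r2 = a'.k2)) ∧
      (¬ (a'.b1 = a'.r1 ∧ a'.b2 = a'.r2)) := by
    intro a' ha' hm'
    rw [mem_posL ha', posOf_near ha', mem_mP ha'] at hm'
    exact ⟨hm'.1, hm'.2.2.1.1, hm'.2.2.1.2⟩
  have h1 : a.r1 < m := h.hr1
  have h2 : a.r2 < n := h.hr2
  unfold posS at hm
  dsimp only at hm
  rw [mem_or, mem_or, mem_or, mem_or] at hm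
  rcases hm with (((hm | hm) | hm) | hm) | hm
  · obtain ⟨u, v, g1, g2, g3, g4, g5, g6⟩ := of_mem_nbr (fun _ _ => rfl) h hm
    have hb : InBox (sqg m n) { a with k1 := u, k2 := v } :=
      ⟨h.hb1, h.hb2, h.hr1, h.hr2, g1, g2⟩
    obtain ⟨k1, k2, k3⟩ := key _ hb g6
    have g1' : u < m := g1
    have g2' : v < n := g2
    have g3' : NearN a.k1 u := g3
    have g4' : NearN a.k2 v := g4
    have g5' : ¬ (u = a.k1 ∧ v = a.k2) := g5
    unfold NearN at g3' g4'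
    dsimp only at k2 k3
    refine ⟨posOf { a with k1 := u, k2 := v }, .king rfl rfl ⟨?_, ?_⟩ ?_ ?_ k1, pos_L hW hb g6⟩
    · simp only [posOf, Ne, Prod.mk.injEq]; omega
    · simp only [posOf, Near]; omega
    · rw [board_on]; simp only [posOf]; omega
    · simp only [posOf, Ne, Prod.mk.injEq]; omega
  · obtain ⟨d, g1, g2, g3, g4⟩ := of_mem_rayU h hm
    have g2' : a.r1 + d < m := g2
    have hb : InBox (sqg m n) { a with r1 := a.r1 + d } :=
      ⟨h.hb1, h.hb2, g2', h.hr2, h.hk1, h.hk2⟩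
    have g4' : ∀ i, 1 ≤ i → i < d → ¬ (a.r1 + i = a.k1 ∧ a.r2 = a.k2) ∧
        ¬ (a.b1 = a.r1 + i ∧ a.b2 = a.r2) := by
      intro i hi1 hi2
      have hb' : InBox (sqg m n) { a with r1 := a.r1 + i } :=
        ⟨h.hb1, h.hb2, by show a.r1 + i < m; omega, h.hr2, h.hk1, h.hk2⟩
      exact (mem_mP hb').1 (g4 i hi1 hi2)
    obtain ⟨k1, k2, k3⟩ := key _ hb g3
    dsimp only at k2 k3
    have g5 := g4' (a.k1 - a.r1)
    have g6 := g4' (a.b1 - a.r1)
    refine ⟨posOf { a with r1 := a.r1 + d }, .rook rfl rfl ⟨?_, Or.inr rfl⟩ ?_ ?_ ?_ ?_ ?_, pos_L hW hb g3⟩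
    · simp only [posOf, Ne, Prod.mk.injEq]; omega
    · rw [board_on]; simp only [posOf]; omega
    · simp only [posOf, Ne, Prod.mk.injEq]; omega
    · simp only [posOf, Ne, Prod.mk.injEq]; omega
    · simp only [posOf, Between, Strict]; omega
    · simp only [posOf, Between, Strict]; omega
  · obtain ⟨d, g1, g2, g3, g4⟩ := of_mem_rayD h hm
    have g2' : d ≤ a.r1 := g2
    have hb : InBox (sqg m n) { a with r1 := a.r1 - d } :=
      ⟨h.hb1, h.hb2, by show a.r1 - d < m; omega, h.hr2, h.hk1, h.hk2⟩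
    have g4' : ∀ i, 1 ≤ i → i < d → ¬ (a.r1 - i = a.k1 ∧ a.r2 = a.k2) ∧
        ¬ (a.b1 = a.r1 - i ∧ a.b2 = a.r2) := by
      intro i hi1 hi2
      have hb' : InBox (sqg m n) { a with r1 := a.r1 - i } :=
        ⟨h.hb1, h.hb2, by show a.r1 - i < m; omega, h.hr2, h.hk1, h.hk2⟩
      exact (mem_mP hb').1 (g4 i hi1 hi2)
    obtain ⟨k1, k2, k3⟩ := key _ hb g3
    dsimp only at k2 k3
    have g5 := g4' (a.r1 - a.k1)
    have g6 := g4' (a.r1 - a.b1)
    refine ⟨posOf { a with r1 := a.r1 - d }, .rook rfl rfl ⟨?_, Or.inr rfl⟩ ?_ ?_ ?_ ?_ ?_, pos_L hW hb g3⟩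
    · simp only [posOf, Ne, Prod.mk.injEq]; omega
    · rw [board_on]; simp only [posOf]; omega
    · simp only [posOf, Ne, Prod.mk.injEq]; omega
    · simp only [posOf, Ne, Prod.mk.injEq]; omega
    · simp only [posOf, Between, Strict]; omega
    · simp only [posOf, Between, Strict]; omega
  · obtain ⟨d, g1, g2, g3, g4⟩ := of_mem_rayU h hm
    have g2' : a.r2 + d < n := g2
    have hb : InBox (sqg m n) { a with r2 := a.r2 + d } :=
      ⟨h.hb1, h.hb2, h.hr1, g2', h.hk1, h.hk2⟩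
    have g4' : ∀ i, 1 ≤ i → i < d → ¬ (a.r1 = a.k1 ∧ a.r2 + i = a.k2) ∧
        ¬ (a.b1 = a.r1 ∧ a.b2 = a.r2 + i) := by
      intro i hi1 hi2
      have hb' : InBox (sqg m n) { a with r2 := a.r2 + i } :=
        ⟨h.hb1, h.hb2, h.hr1, by show a.r2 + i < n; omega, h.hk1, h.hk2⟩
      exact (mem_mP hb').1 (g4 i hi1 hi2)
    obtain ⟨k1, k2, k3⟩ := key _ hb g3
    dsimp only at k2 k3
    have g5 := g4' (a.k2 - a.r2)
    have g6 := g4' (a.b2 - a.r2)
    refine ⟨posOf { a with r2 := a.r2 + d }, .rook rfl rfl ⟨?_, Or.inl rfl⟩ ?_ ?_ ?_ ?_ ?_, pos_L hW hb g3⟩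
    · simp only [posOf, Ne, Prod.mk.injEq]; omega
    · rw [board_on]; simp only [posOf]; omega
    · simp only [posOf, Ne, Prod.mk.injEq]; omega
    · simp only [posOf, Ne, Prod.mk.injEq]; omega
    · simp only [posOf, Between, Strict]; omega
    · simp only [posOf, Between, Strict]; omega
  · obtain ⟨d, g1, g2, g3, g4⟩ := of_mem_rayD h hm
    have g2' : d ≤ a.r2 := g2
    have hb : InBox (sqg m n) { a with r2 := a.r2 - d } :=
      ⟨h.hb1, h.hb2, h.hr1, by show a.r2 - d < n; omega, h.hk1, h.hk2⟩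
    have g4' : ∀ i, 1 ≤ i → i < d → ¬ (a.r1 = a.k1 ∧ a.r2 - i = a.k2) ∧
        ¬ (a.b1 = a.r1 ∧ a.b2 = a.r2 - i) := by
      intro i hi1 hi2
      have hb' : InBox (sqg m n) { a with r2 := a.r2 - i } :=
        ⟨h.hb1, h.hb2, h.hr1, by show a.r2 - i < n; omega, h.hk1, h.hk2⟩
      exact (mem_mP hb').1 (g4 i hi1 hi2)
    obtain ⟨k1, k2, k3⟩ := key _ hb g3
    dsimp only at k2 k3
    have g5 := g4' (a.r2 - a.k2)
    have g6 := g4' (a.r2 - a.b2)
    refine ⟨posOf { a with r2 := a.r2 - d }, .rook rfl rfl ⟨?_, Or.inl rfl⟩ ?_ ?_ ?_ ?_ ?_, pos_L hW hb g3⟩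
    · simp only [posOf, Ne, Prod.mk.injEq]; omega
    · rw [board_on]; simp only [posOf]; omega
    · simp only [posOf, Ne, Prod.mk.injEq]; omega
    · simp only [posOf, Ne, Prod.mk.injEq]; omega
    · simp only [posOf, Between, Strict]; omega
    · simp only [posOf, Between, Strict]; omega

theorem pos_mateIn : ∀ (N : ℕ) (a : Co), InBox (sqg m n) a →
    mem (sqg m n) (posI (sqg m n) N) a → MateIn ⟨(m : ℕ∞), (n : ℕ∞), false⟩ N (posOf a)
  | 0, a, _, h => by simp [posI, mem] at h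
  | N + 1, _, h, hm => pos_S (pos_mateIn N) h hm

end game

end K1H58.KR
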