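import Pool.Agent.K1H58.KR.NegDef

/-!
# The exact game on a small board whose north and east edges are exits: bit tables
-/

set_option autoImplicit false

namespace K1H58.KR

section
variable {g : Geo}

/-- points from which `X` is reached by a king step in the plane of the axes `x`, `y` -/
def nbr (x y : Axis g) (X : ℕ) : ℕ :=
  (fun H => (fun V => H ||| up y V ||| dn y V) (X ||| H)) (up x X ||| dn x X)

def qU (x : Axis g) (t Q : ℕ) : ℕ := Q &&& upt x t Q

def gU (x : Axis g) (t Q G : ℕ) : ℕ := G ||| (Q &&& upt x t G)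

def qD (x : Axis g) (t Q : ℕ) : ℕ := Q &&& dnt x t Q

def gD (x : Axis g) (t Q G : ℕ) : ℕ := G ||| (Q &&& dnt x t G)

/-- points from which `L` is reached by a rook move up along the axis, the squares passed being
in `P` -/
def rayU (x : Axis g) (P L : ℕ) : ℕ :=
  upt x 1 (gU x 8 (qU x 4 (qU x 2 (qU x 1 P))) (gU x 4 (qU x 2 (qU x 1 P))
    (gU x 2 (qU x 1 P) (gU x 1 P L))))

def rayD (x : Axis g) (P L : ℕ) : ℕ :=
  dnt x 1 (gD x 8 (qD x 4 (qD x 2 (qD x 1 P))) (gD x 4 (qD x 2 (qD x 1 P))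
    (gD x 2 (qD x 1 P) (gD x 1 P L))))

end

/-- the rook is on a square of its own -/
def mP (g : Geo) : ℕ := cmp g ((mXk g &&& mYk g) ||| mEq g)

/-- Black, to move, is mated or has only moves to `W` -/
def posL (g : Geo) (W : ℕ) : ℕ :=
  cmp g (mNKB g ||| mCap g) &&& mP g &&& sl (axb1 g) (fun b => Nat.blt (b + 1) g.A) &&&
    sl (axb2 g) (fun b => Nat.blt (b + 1) g.B) &&&
    cmp g (nbr (axb1 g) (axb2 g) (mLegal g &&& cmp g W)) &&&
    (mAtt g ||| nbr (axb1 g) (axb2 g) (mLegal g))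

/-- White, to move, has a move to a position in `posL g W` -/
def posS (g : Geo) (W : ℕ) : ℕ :=
  (fun L => nbr (axk1 g) (axk2 g) L ||| rayU (axr1 g) (mP g) L ||| rayD (axr1 g) (mP g) L |||
    rayU (axr2 g) (mP g) L ||| rayD (axr2 g) (mP g) L) (posL g W)

def posI (g : Geo) : ℕ → ℕ
  | 0 => 0
  | n + 1 => posS g (posI g n)

end K1H58.KR
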