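import Pool.Agent.K1H58.KR.NegDef

/-!
# The table computation for the quarter-infinite board
-/

set_option autoImplicit false
set_option maxRecDepth 100000

namespace K1H58.KR

theorem runA : Nat.testBit (negI ⟨11, 11, true, true⟩ 38 (full (Cfg.g ⟨11, 11, true, true⟩)))
    (ix (Cfg.g ⟨11, 11, true, true⟩) startCo) = true := by
  decide +kernel

end K1H58.KR
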