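import Pool.Agent.K1H58.KR.NegDef

/-!
# The table computations for the boards on which Black survives
-/

set_option autoImplicit false
set_option maxRecDepth 100000

namespace K1H58.KR

theorem runB : Nat.testBit (negI ⟨10, 10, false, false⟩ 42 (full (Cfg.g ⟨10, 10, false, false⟩)))
    (ix (Cfg.g ⟨10, 10, false, false⟩) startCo) = true := by
  decide +kernel

theorem runB' : Nat.beq (negS ⟨10, 10, false, false⟩ (negI ⟨10, 10, false, false⟩ 42 (full (Cfg.g ⟨10, 10, false, false⟩))))
    (negI ⟨10, 10, false, false⟩ 42 (full (Cfg.g ⟨10, 10, false, false⟩))) = true := by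
  decide +kernel

theorem runC : Nat.testBit (negI ⟨8, 5, false, true⟩ 28 (full (Cfg.g ⟨8, 5, false, true⟩)))
    (ix (Cfg.g ⟨8, 5, false, true⟩) startCo) = true := by
  decide +kernel

theorem runC' : Nat.beq (negS ⟨8, 5, false, true⟩ (negI ⟨8, 5, false, true⟩ 28 (full (Cfg.g ⟨8, 5, false, true⟩))))
    (negI ⟨8, 5, false, true⟩ 28 (full (Cfg.g ⟨8, 5, false, true⟩))) = true := by
  decide +kernel

theorem runD : Nat.testBit (negI ⟨5, 8, true, false⟩ 28 (full (Cfg.g ⟨5, 8, true, false⟩)))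
    (ix (Cfg.g ⟨5, 8, true, false⟩) startCo) = true := by
  decide +kernel

theorem runD' : Nat.beq (negS ⟨5, 8, true, false⟩ (negI ⟨5, 8, true, false⟩ 28 (full (Cfg.g ⟨5, 8, true, false⟩))))
    (negI ⟨5, 8, true, false⟩ 28 (full (Cfg.g ⟨5, 8, true, false⟩))) = true := by
  decide +kernel

end K1H58.KR
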