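import Pool.Agent.K1H58.KR.PosDef

/-!
# The table computations for the boards on which White wins
-/

set_option autoImplicit false
set_option maxRecDepth 100000

namespace K1H58.KR

theorem runP : Nat.testBit (posI ⟨9, 11, 9, 11⟩ 39) (ix ⟨9, 11, 9, 11⟩ startCo) = true := by
  decide +kernel

theorem runQ : Nat.testBit (posI ⟨11, 9, 11, 9⟩ 39) (ix ⟨11, 9, 11, 9⟩ startCo) = true := by
  decide +kernel

end K1H58.KR
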